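import Pool.Agent.H45.BRT.Los

/-!
# Properties of the cut; the axioms of `PA⁻`, induction and comprehension
-/

set_option autoImplicit false

namespace Pool.Agent.H45.BRT

open Filter

variable {D : Data}

lemma semireg {F c : Seq} (hF : F ∈ IH) (hc : c ∈ IH) (hcut : InCut D (fun i => c i 0)) :
    ∃ n, ∀ᶠ i in (U : Filter ℕ), ∀ x < c i 0, F i x < D.A n i 0 ∨ D.B n i ≤ F i x := by
  obtain ⟨m, hm⟩ := hcut
  obtain ⟨n, hmn, hreq⟩ := D.req_spec F hF c hc m
  refine ⟨n + 1, ?_⟩
  have h := D.step n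
  rw [hreq] at h
  filter_upwards [h, hm, A_mono D hmn] with i h1 h2 h3 x hx
  have h4 := h1.1.2.2.2.2.1 (by omega) x hx
  unfold Data.B
  by_cases h5 : D.A (n + 1) i 0 ≤ F i x
  · right
    by_contra h6
    exact h4 ⟨h5, by omega⟩
  · left; omega

lemma color {F c : Seq} (hF : F ∈ IH) (hc : c ∈ IH) (hcut : InCut D (fun i => c i 0))
    (hFc : ∀ᶠ i in (U : Filter ℕ), ∀ x, F i x < c i 0) :
    ∃ n, ∀ᶠ i in (U : Filter ℕ), ∀ x, D.X (n + 1) i x ≠ 0 → F i x = D.J n i 0 := by
  obtain ⟨m, hm⟩ := hcut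
  obtain ⟨n, hmn, hreq⟩ := D.req_spec F hF c hc m
  refine ⟨n, ?_⟩
  have h := D.step n
  rw [hreq] at h
  filter_upwards [h, hm, A_mono D hmn, hFc] with i h1 h2 h3 h4 x hx
  exact ((h1.2.1 x).1 hx).2 (by omega) h4

lemma X_unbounded (n m : ℕ) : ∃ k, ∀ᶠ i in (U : Filter ℕ), ∃ x, D.X n i x ≠ 0 ∧
    D.A m i 0 ≤ x ∧ x < D.A k i 0 := by
  refine ⟨max n m + 1, ?_⟩
  filter_upwards [D.step (max n m), A_mono D (le_max_right n m), X_anti D (le_max_left n m)]
    with i h1 h2 h3
  obtain ⟨x, hx, -, h4, h5⟩ := h1.1.2.2.2.1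
  exact ⟨x, h3 x hx, by omega, h5⟩

lemma hits {h : Seq} (hh : h ∈ IH) : ∃ n,
    (∀ᶠ i in (U : Filter ℕ), ∀ x, D.A n i 0 ≤ x → x < D.B n i → h i x = 0) ∨
    ∀ᶠ i in (U : Filter ℕ), ∃ x y, x < y ∧ y < D.A n i 0 ∧ h i x ≠ 0 ∧ h i y ≠ 0 ∧
      adj i (2 ^ i + 2) x y := by
  obtain ⟨n, -, hreq⟩ := D.req_spec h hh h hh 0
  refine ⟨n + 1, ?_⟩
  rw [← Ultrafilter.eventually_or]
  have hs := D.step n
  rw [hreq] at hs
  filter_upwards [hs, D.inv n] with i h1 h2
  rcases h1.1.2.2.2.2.2.1 with h3 | ⟨x, y, h3, h4, h5, h6, h7⟩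
  · left; exact h3
  · right
    refine ⟨x, y, h3, h4, h5, h6, h2.2.2 x y ?_⟩
    rw [h1.2.2]
    exact h7

/-- A number above the cut. -/
lemma exists_top (D : Data) : ∃ T ∈ IH, ∀ i, T i 0 = D.B 0 i := by
  obtain ⟨T, hT, h⟩ := selI .top (L₁ := [fun i _ => i - 0, D.A 0]) (L₂ := [])
    (by simpa using ⟨lev_mem 0, D.A_mem 0⟩) (by simp)
  exact ⟨T, hT, fun i => h i (Rel_top _ _ _)⟩

lemma lt_top (n : ℕ) (x : Car D) : ∀ᶠ i in (U : Filter ℕ), rep x i 0 < D.B n i := by
  obtain ⟨m, hm⟩ := rep_cut x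
  filter_upwards [hm, A_lt_B D m n] with i h1 h2
  omega

/-- Numbers which are below the cut. -/
lemma inCut_of_lt {F : Seq} {n : ℕ}
    (h1 : ∀ᶠ i in (U : Filter ℕ), F i 0 < D.A n i 0 ∨ D.B n i ≤ F i 0) (y : Car D)
    (h2 : ∀ᶠ i in (U : Filter ℕ), F i 0 ≤ rep y i 0) :
    ∀ᶠ i in (U : Filter ℕ), F i 0 < D.A n i 0 := by
  filter_upwards [h1, h2, lt_top n y] with i h3 h4 h5
  omega

theorem paMinus (D : Data) : (model D).PAMinus where
  add_assoc x y z := Subtype.ext (_root_.add_assoc x.1 y.1 z.1)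
  add_comm x y := Subtype.ext (_root_.add_comm x.1 y.1)
  mul_assoc x y z := Subtype.ext (_root_.mul_assoc x.1 y.1 z.1)
  mul_comm x y := Subtype.ext (_root_.mul_comm x.1 y.1)
  mul_add x y z := Subtype.ext (_root_.mul_add x.1 y.1 z.1)
  add_zero x := Subtype.ext (_root_.add_zero x.1)
  mul_zero x := Subtype.ext (MulZeroClass.mul_zero x.1)
  mul_one x := Subtype.ext (_root_.mul_one x.1)
  lt_trans x y z h1 h2 := _root_.lt_trans (α := Germ (U : Filter ℕ) ℕ) h1 h2
  lt_irrefl x := _root_.lt_irrefl x.1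
  lt_total x y := by
    rcases _root_.lt_trichotomy x.1 y.1 with h | h | h
    · exact Or.inl h
    · exact Or.inr (Or.inl (Subtype.ext h))
    · exact Or.inr (Or.inr h)
  add_lt_add x y z h := by
    show x.1 + z.1 < y.1 + z.1
    exact add_lt_add_left h z.1
  mul_lt_mul x y z hz h := by
    show x.1 * z.1 < y.1 * z.1
    exact mul_lt_mul_of_pos_right h hz
  exists_add x y h := by
    obtain ⟨F, hF, h1⟩ := selI .sub (L₁ := [rep y, rep x]) (L₂ := [])
      (by simpa using ⟨rep_mem y, rep_mem x⟩) (by simp)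
    have h1' : ∀ i, F i 0 = rep y i 0 - rep x i 0 := fun i => h1 i (Rel_sub _ _ _)
    have hc : InCut D (fun i => F i 0) := (rep_cut y).mono (Eventually.of_forall fun i => by
      rw [h1' i]; exact Nat.sub_le _ _)
    refine ⟨mk F hF hc, ?_⟩
    rw [car_eq_iff]
    have h' : x.1 < y.1 := h
    rw [car_lt_iff] at h'
    filter_upwards [h', rep_add x (mk F hF hc), rep_mk F hF hc] with i h2 h3 h4
    rw [h3, h4, h1' i]; omega
  zero_lt_one := by
    show ((model D).zero : Car D).1 < ((model D).one : Car D).1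
    rw [car_lt_iff]
    filter_upwards [rep_zero (D := D), rep_one (D := D)] with i h1 h2
    rw [h1, h2]; exact Nat.one_pos
  discrete x h := by
    have h' : ((model D).zero : Car D).1 < x.1 := h
    rw [car_lt_iff] at h'
    by_cases h1 : x = (model D).one
    · exact Or.inl h1
    · right
      show ((model D).one : Car D).1 < x.1
      rw [car_lt_iff]
      rw [car_eq_iff, ← Ultrafilter.eventually_not] at h1
      filter_upwards [h', h1, rep_zero (D := D), rep_one (D := D)] with i h2 h3 h4 h5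
      omega
  zero_le x := by
    by_cases h1 : x = (model D).zero
    · exact Or.inl h1
    · right
      show ((model D).zero : Car D).1 < x.1
      rw [car_lt_iff]
      rw [car_eq_iff, ← Ultrafilter.eventually_not] at h1
      filter_upwards [h1, rep_zero (D := D)] with i h3 h4
      omega

lemma vals_mk (F : Seq) (hF : F ∈ IH) (hc : InCut D (fun i => F i 0)) (v : List (Car D)) :
    ∀ᶠ i in (U : Filter ℕ), vals (mk F hF hc :: v) i = F i 0 :: vals v i := by
  filter_upwards [rep_mk F hF hc] with i hi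
  simp [vals, hi]

lemma map_rep_mem (v : List (Car D)) : ∀ G ∈ v.map rep, G ∈ IH := by
  intro G hG
  obtain ⟨x, -, rfl⟩ := List.mem_map.1 hG
  exact rep_mem x

lemma cons_mem {F : Seq} (hF : F ∈ IH) {L : List Seq} (hL : ∀ G ∈ L, G ∈ IH) :
    ∀ G ∈ F :: L, G ∈ IH := by
  intro G hG
  rcases List.mem_cons.1 hG with rfl | hG
  · exact hF
  · exact hL G hG

lemma map_rep (v : List (Car D)) (i : ℕ) : (v.map rep).map (fun G => G i 0) = vals v i := by
  simp [vals, Function.comp_def]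

/-- The least-witness function of a bounded formula. -/
lemma exists_leastF (φ : BForm) {N : Seq} (hN : N ∈ IH) (v : List (Car D)) {L : List Seq}
    (hL : ∀ G ∈ L, G ∈ IH) : ∃ F ∈ IH, ∀ i x, F i x ≤ N i 0 ∧
      (∀ z < F i x, ¬ SI L φ (z :: x :: vals v i) i) ∧
      (F i x = N i 0 ∨ SI L φ (F i x :: x :: vals v i) i) := by
  obtain ⟨F, hF, h⟩ := selI (.leastF φ) (cons_mem hN (map_rep_mem v)) hL
  refine ⟨F, hF, fun i x => ?_⟩
  have h1 := h i (by simp only [List.map_cons]; exact Rel_leastF _ _ _ _)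
  simp only [List.map_cons, map_rep] at h1
  exact h1 x

/-- Evaluation of internal functions at numbers of the model. -/
lemma exists_app {F : Seq} (hF : F ∈ IH) (x : Car D) : ∃ K ∈ IH, ∀ i, K i 0 = F i (rep x i 0) :=
  app_mem hF (rep_mem x)

theorem iSigma1 (D : Data) : (model D).ISigma1 := by
  intro φ v V hV h0 hs
  obtain ⟨L, hL, rfl⟩ := exists_sets V hV
  obtain ⟨T, hT, hT'⟩ := exists_top D
  obtain ⟨F, hF, hF'⟩ := exists_leastF φ hT v hL
  intro x₀
  -- the witnesses are bounded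
  obtain ⟨c, hc, hc'⟩ := selI .add (L₁ := [rep x₀, fun _ _ => 1]) (L₂ := [])
    (by simpa using ⟨rep_mem x₀, const_mem 1⟩) (by simp)
  have hc1 : ∀ i, c i 0 = rep x₀ i 0 + 1 := fun i => hc' i (Rel_add _ _ _)
  have hccut : InCut D (fun i => c i 0) := by
    simp only [hc1]; exact (rep_cut x₀).add (inCut_const 1)
  obtain ⟨n, hn⟩ := semireg hF hc hccut
  -- satisfaction in terms of `F`
  have key : ∀ x : Car D, (∀ᶠ i in (U : Filter ℕ), rep x i 0 ≤ rep x₀ i 0) →
      ((∃ y : Car D, (model D).Sat (L.map (setOf D)) φ (y :: x :: v)) ↔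
        ∀ᶠ i in (U : Filter ℕ), F i (rep x i 0) < D.A n i 0) := by
    intro x hx
    constructor
    · rintro ⟨y, hy⟩
      rw [los L hL] at hy
      filter_upwards [hy, hx, hn, lt_top n y, lt_top 0 y] with i h1 h2 h3 h4 h5
      obtain ⟨f1, f2, f3⟩ := hF' i (rep x i 0)
      have h6 : F i (rep x i 0) ≤ rep y i 0 := by
        by_contra h7
        exact f2 _ (not_le.1 h7) h1
      rcases h3 (rep x i 0) (by rw [hc1]; omega) with h7 | h7
      · exact h7
      · omega
    · intro h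
      obtain ⟨K, hK, hK'⟩ := exists_app hF x
      have hKcut : InCut D (fun i => K i 0) := (inCut_A n).mono (by
        filter_upwards [h] with i hi; rw [hK']; omega)
      refine ⟨mk K hK hKcut, ?_⟩
      rw [los L hL]
      filter_upwards [h, vals_mk K hK hKcut (x :: v), A_lt_B D n 0] with i h1 h2 h3
      rw [h2, hK' i]
      obtain ⟨f1, f2, f3⟩ := hF' i (rep x i 0)
      rcases f3 with f3 | f3
      · rw [hT' i] at f3; omega
      · exact f3
  rw [key x₀ (Eventually.of_forall fun _ => le_rfl)]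
  by_contra hcon
  rw [← Ultrafilter.eventually_not] at hcon
  -- the least counterexample
  obtain ⟨X, hX, hX'⟩ := selI .leastGE (L₁ := [c, D.A n]) (L₂ := [F])
    (by simpa using ⟨hc, D.A_mem n⟩) (by simpa using hF)
  have hX1 : ∀ i, X i 0 ≤ c i 0 ∧ (∀ x < X i 0, F i x < D.A n i 0) ∧
      (X i 0 = c i 0 ∨ D.A n i 0 ≤ F i (X i 0)) := fun i => hX' i (Rel_leastGE _ _ _)
  have hX2 : ∀ᶠ i in (U : Filter ℕ), X i 0 ≤ rep x₀ i 0 ∧ D.A n i 0 ≤ F i (X i 0) := by
    filter_upwards [hcon] with i hi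
    obtain ⟨g1, g2, g3⟩ := hX1 i
    have h1 : X i 0 ≤ rep x₀ i 0 := by
      by_contra h2
      exact hi (g2 _ (not_le.1 h2))
    refine ⟨h1, ?_⟩
    rcases g3 with g3 | g3
    · rw [hc1] at g3; omega
    · exact g3
  have hXcut : InCut D (fun i => X i 0) := (rep_cut x₀).mono (by
    filter_upwards [hX2] with i hi using hi.1)
  have hXno : ¬ ∃ y : Car D, (model D).Sat (L.map (setOf D)) φ (y :: mk X hX hXcut :: v) := by
    rw [key (mk X hX hXcut) (by
      filter_upwards [rep_mk X hX hXcut, hX2] with i h1 h2; rw [h1]; exact h2.1)]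
    intro h
    obtain ⟨i, h1, h2, h3⟩ := (h.and (hX2.and (rep_mk X hX hXcut))).exists
    rw [h3] at h1
    omega
  -- it is not zero
  by_cases hz : ∀ᶠ i in (U : Filter ℕ), X i 0 = 0
  · apply hXno
    have : mk X hX hXcut = (model D).zero := by
      rw [car_eq_iff]
      filter_upwards [hz, rep_mk X hX hXcut, rep_zero (D := D)] with i h1 h2 h3
      rw [h2, h1, h3]
    rw [this]
    exact h0
  · rw [← Ultrafilter.eventually_not] at hz
    obtain ⟨Y, hY, hY'⟩ := selI .sub (L₁ := [X, fun _ _ => 1]) (L₂ := [])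
      (by simpa using ⟨hX, const_mem 1⟩) (by simp)
    have hY1 : ∀ i, Y i 0 = X i 0 - 1 := fun i => hY' i (Rel_sub _ _ _)
    have hYcut : InCut D (fun i => Y i 0) := hXcut.mono (Eventually.of_forall fun i => by
      rw [hY1]; exact Nat.sub_le _ _)
    have h1 : ∃ y : Car D, (model D).Sat (L.map (setOf D)) φ (y :: mk Y hY hYcut :: v) := by
      rw [key (mk Y hY hYcut) (by
        filter_upwards [rep_mk Y hY hYcut, hX2] with i h1 h2; rw [h1, hY1]; omega)]
      filter_upwards [rep_mk Y hY hYcut, hz] with i h1 h2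
      rw [h1]
      exact (hX1 i).2.1 _ (by rw [hY1]; omega)
    have h2 := hs _ h1
    apply hXno
    have : (model D).add (mk Y hY hYcut) (model D).one = mk X hX hXcut := by
      rw [car_eq_iff]
      filter_upwards [hz, rep_mk X hX hXcut, rep_mk Y hY hYcut, rep_one (D := D),
        rep_add (mk Y hY hYcut) (model D).one] with i h1 h2 h3 h4 h5
      rw [h5, h3, h2, h4, hY1]; omega
    rw [this] at h2
    exact h2

theorem delta1CA (D : Data) : (model D).Delta1CA := by
  intro φ ψ v V hV h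
  obtain ⟨L, hL, rfl⟩ := exists_sets V hV
  obtain ⟨T, hT, hT'⟩ := exists_top D
  obtain ⟨F, hF, hF1⟩ := selI (.ca φ ψ) (cons_mem hT (map_rep_mem v)) hL
  have hF' : ∀ i x, F i x ≠ 0 ↔ ∃ y < T i 0, SI L φ (y :: x :: vals v i) i ∧
      ∀ y' < y, SI L ψ (y' :: x :: vals v i) i := by
    intro i x
    have h1 := hF1 i (by simp only [List.map_cons]; exact Rel_ca _ _ _ _ _)
    simp only [List.map_cons, map_rep] at h1
    exact h1 x
  refine ⟨F, hF, ?_⟩
  ext x
  rw [mem_setOf_iff]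
  -- the least `y` with `φ` or not `ψ`
  obtain ⟨G, hG, hG'⟩ := exists_leastF φ hT v hL
  obtain ⟨G', hG1, hG1'⟩ := exists_leastF (.neg ψ) hT v hL
  obtain ⟨K, hK, hK'⟩ := exists_app hG x
  obtain ⟨K', hK1, hK1'⟩ := exists_app hG1 x
  constructor
  · rintro ⟨y, hy⟩
    have hall := (h x).1 ⟨y, hy⟩
    rw [los L hL] at hy
    -- `ψ` holds at all `y' ≤ y`
    by_contra hcon
    rw [← Ultrafilter.eventually_not] at hcon
    have h2 : ∀ᶠ i in (U : Filter ℕ), K' i 0 < rep y i 0 ∧
        ¬ SI L ψ (K' i 0 :: rep x i 0 :: vals v i) i := by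
      filter_upwards [hcon, hy, lt_top 0 y] with i h3 h4 h5
      rw [hF' i] at h3
      push Not at h3
      obtain ⟨y', hy', h6⟩ := h3 (rep y i 0) (by rw [hT']; exact h5) h4
      obtain ⟨g1, g2, g3⟩ := hG1' i (rep x i 0)
      rw [hK1' i]
      have h7 : G' i (rep x i 0) ≤ y' := by
        by_contra h8
        exact g2 _ (not_le.1 h8) h6
      refine ⟨by omega, ?_⟩
      rcases g3 with g3 | g3
      · rw [hT'] at g3; omega
      · exact g3
    have hcut : InCut D (fun i => K' i 0) := (rep_cut y).mono (by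
      filter_upwards [h2] with i hi using hi.1.le)
    have h3 := hall (mk K' hK1 hcut)
    rw [los L hL] at h3
    obtain ⟨i, h4, h5, h6⟩ := (h3.and (h2.and (vals_mk K' hK1 hcut (x :: v)))).exists
    rw [h6] at h4
    exact h5.2 h4
  · intro h1
    by_contra hcon
    have hcon' : ¬ ∀ y, (model D).Sat (L.map (setOf D)) ψ (y :: x :: v) := fun h2 =>
      hcon ((h x).2 h2)
    rw [not_forall] at hcon'
    obtain ⟨y, hy⟩ := hcon'
    rw [los L hL, ← Ultrafilter.eventually_not] at hy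
    -- then `φ` has a witness below `y`
    have h2 : ∀ᶠ i in (U : Filter ℕ), K i 0 ≤ rep y i 0 ∧
        SI L φ (K i 0 :: rep x i 0 :: vals v i) i := by
      filter_upwards [h1, hy, lt_top 0 y] with i h3 h4 h5
      obtain ⟨z, hz, h6, h7⟩ := (hF' i _).1 h3
      obtain ⟨g1, g2, g3⟩ := hG' i (rep x i 0)
      rw [hK' i]
      have h8 : G i (rep x i 0) ≤ z := by
        by_contra h8
        exact g2 _ (not_le.1 h8) h6
      have h9 : z ≤ rep y i 0 := by
        by_contra h9
        exact h4 (h7 _ (not_le.1 h9))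
      refine ⟨by omega, ?_⟩
      rcases g3 with g3 | g3
      · rw [hT'] at g3 hz; omega
      · exact g3
    have hcut : InCut D (fun i => K i 0) := (rep_cut y).mono (by
      filter_upwards [h2] with i hi using hi.1)
    apply hcon
    refine ⟨mk K hK hcut, ?_⟩
    rw [los L hL]
    filter_upwards [h2, vals_mk K hK hcut (x :: v)] with i h3 h4
    rw [h4]
    exact h3.2

end Pool.Agent.H45.BRT
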