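import Pool.Agent.H45.BRT.Axioms1

/-!
# Collection
-/

set_option autoImplicit false

namespace Pool.Agent.H45.BRT

open Filter

variable {D : Data}

/-- Bounded transfer. -/
lemma bdd (L : List Seq) (hL : ∀ F ∈ L, F ∈ IH) (φ : BForm) (v : List (Car D)) {N : Seq}
    (hN : N ∈ IH) (hNc : InCut D (fun i => N i 0))
    (h : ∀ x : Car D, (∀ᶠ i in (U : Filter ℕ), rep x i 0 < N i 0) →
      (model D).Sat (L.map (setOf D)) φ (x :: v)) :
    ∀ᶠ i in (U : Filter ℕ), ∀ x < N i 0, SI L φ (x :: vals v i) i := by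
  by_contra hcon
  rw [← Ultrafilter.eventually_not] at hcon
  obtain ⟨G, hG, h1⟩ := selI (.least (.neg φ)) (cons_mem hN (map_rep_mem v)) hL
  have h2 : ∀ i, G i 0 ≤ N i 0 ∧ (∀ z < G i 0, ¬ ¬ SI L φ (z :: vals v i) i) ∧
      (G i 0 = N i 0 ∨ ¬ SI L φ (G i 0 :: vals v i) i) := by
    intro i
    have := h1 i (by simp only [List.map_cons]; exact Rel_least _ _ _ _)
    simp only [List.map_cons, map_rep] at this
    exact this
  have hGT : ∀ᶠ i in (U : Filter ℕ), G i 0 < N i 0 ∧ ¬ SI L φ (G i 0 :: vals v i) i := by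
    filter_upwards [hcon] with i h3
    push Not at h3
    obtain ⟨x, hx, hx'⟩ := h3
    obtain ⟨g1, g2, g3⟩ := h2 i
    have hle : G i 0 ≤ x := by
      by_contra hlt
      exact g2 x (not_le.1 hlt) hx'
    refine ⟨by omega, ?_⟩
    rcases g3 with g3 | g3
    · omega
    · exact g3
  have hcut : InCut D (fun i => G i 0) := hNc.mono (by
    filter_upwards [hGT] with i hi using hi.1.le)
  have h5 := h (mk G hG hcut) (by
    filter_upwards [rep_mk G hG hcut, hGT] with i h6 h7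
    rw [h6]; exact h7.1)
  rw [los L hL] at h5
  obtain ⟨i, hi1, hi2, hi3⟩ := (h5.and (hGT.and (vals_mk G hG hcut v))).exists
  rw [hi3] at hi1
  exact hi2.2 hi1

section ZZ

variable {V : List (ℕ → ℕ)} {θ : BForm} {v : List ℕ} {N x w w' z z' : ℕ}

lemma TT.mono_z (h : TT V θ v x z w) (hz : z ≤ z') : TT V θ v x z' w := by
  obtain ⟨y, hy, u, hu, h⟩ := h
  exact ⟨y, hy.trans hz, u, hu.trans hz, h⟩

lemma TT.anti_w (h : TT V θ v x z w') (hw : w ≤ w') : TT V θ v x z w := by
  obtain ⟨y, hy, u, hu, h⟩ := h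
  exact ⟨y, hy, u, hu, fun w₁ hw₁ => h w₁ (by omega)⟩

lemma ZZ_le (h : TT V θ v x z w) : ZZ V θ v N x w ≤ z := Nat.sInf_le (Or.inr h)

lemma ZZ_mem : ZZ V θ v N x w = N ∨ TT V θ v x (ZZ V θ v N x w) w :=
  Nat.sInf_mem (s := {z | z = N ∨ TT V θ v x z w}) ⟨N, Or.inl rfl⟩

lemma ZZ_mono (hw : w ≤ w') : ZZ V θ v N x w ≤ ZZ V θ v N x w' := by
  rcases ZZ_mem (V := V) (θ := θ) (v := v) (N := N) (x := x) (w := w') with h | h
  · exact Nat.sInf_le (Or.inl h)
  · exact Nat.sInf_le (Or.inr (h.anti_w hw))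

end ZZ

theorem bSigma2 (D : Data) : (model D).BSigma2 := by
  intro θ v V hV a h
  obtain ⟨L, hL, rfl⟩ := exists_sets V hV
  by_cases ha : ∀ᶠ i in (U : Filter ℕ), rep a i 0 = 0
  · refine ⟨(model D).zero, fun x hx => ?_⟩
    exfalso
    have hx' : x.1 < a.1 := hx
    rw [car_lt_iff] at hx'
    obtain ⟨i, h1, h2⟩ := (hx'.and ha).exists
    omega
  rw [← Ultrafilter.eventually_not] at ha
  obtain ⟨T, hT, hT'⟩ := exists_top D
  obtain ⟨F, hF, hF1⟩ := selI (.argmax θ)
    (cons_mem hT (cons_mem (rep_mem a) (map_rep_mem v))) hL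
  have hF' : ∀ᶠ i in (U : Filter ℕ), ∀ w, F i w < rep a i 0 ∧ ∀ x < rep a i 0,
      ZZ (L.map fun F => F i) θ (vals v i) (T i 0) x w ≤
        ZZ (L.map fun F => F i) θ (vals v i) (T i 0) (F i w) w := by
    filter_upwards [ha] with i hi
    have h1 := hF1 i (by simp only [List.map_cons]; exact Rel_argmax _ _ _ (by omega) _ _)
    simp only [List.map_cons, map_rep] at h1
    exact h1
  obtain ⟨n, hn⟩ := color hF (rep_mem a) (rep_cut a) (by
    filter_upwards [hF'] with i hi x using (hi x).1)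
  -- the dominating element
  have hJa : ∀ᶠ i in (U : Filter ℕ), D.J n i 0 < rep a i 0 := by
    obtain ⟨k, hk⟩ := X_unbounded (D := D) (n + 1) 0
    filter_upwards [hk, hF', hn] with i h1 h2 h3
    obtain ⟨w, hw, -⟩ := h1
    rw [← h3 w hw]
    exact (h2 w).1
  have hJcut : InCut D (fun i => D.J n i 0) := (rep_cut a).mono (by
    filter_upwards [hJa] with i hi using hi.le)
  set xs := mk (D.J n) (D.J_mem n) hJcut with hxs
  have hxsr : ∀ᶠ i in (U : Filter ℕ), rep xs i 0 = D.J n i 0 := rep_mk _ _ _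
  obtain ⟨y, u, hyu⟩ := h xs (by
    show xs.1 < a.1
    rw [car_lt_iff]
    filter_upwards [hxsr, hJa] with i h1 h2; omega)
  set z : Car D := (model D).add y u with hz
  have hzr : ∀ᶠ i in (U : Filter ℕ), rep z i 0 = rep y i 0 + rep u i 0 := rep_add y u
  -- the bound for the dominating element
  have hdom : ∀ k, ∀ᶠ i in (U : Filter ℕ),
      TT (L.map fun F => F i) θ (vals v i) (D.J n i 0) (rep z i 0) (D.A k i 0) := by
    intro k
    have h1 := bdd L hL θ (u :: y :: xs :: v) (D.A_mem k) (inCut_A k) (fun w _ => hyu w)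
    filter_upwards [h1, hzr, hxsr] with i h2 h3 h4
    refine ⟨rep y i 0, by omega, rep u i 0, by omega, fun w' hw' => ?_⟩
    have h5 := h2 w' hw'
    have e1 : vals (u :: y :: xs :: v) i = rep u i 0 :: rep y i 0 :: D.J n i 0 :: vals v i := by
      simp [vals, h4]
    rw [e1] at h5
    exact h5
  -- the bound for all elements
  have hall : ∀ w x : Car D, (∀ᶠ i in (U : Filter ℕ), rep x i 0 < rep a i 0) →
      ∀ᶠ i in (U : Filter ℕ),
        TT (L.map fun F => F i) θ (vals v i) (rep x i 0) (rep z i 0) (rep w i 0) := by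
    intro w x hx
    obtain ⟨m, hm⟩ := rep_cut w
    obtain ⟨k, hk⟩ := X_unbounded (D := D) (n + 1) m
    filter_upwards [hx, hm, hk, hn, hF', hdom k, lt_top 0 z] with i h1 h2 h3 h4 h5 h6 h7
    obtain ⟨w₀, hw₀, h8, h9⟩ := h3
    have e1 : ZZ (L.map fun F => F i) θ (vals v i) (T i 0) (rep x i 0) (rep w i 0) ≤ rep z i 0 :=
      calc ZZ (L.map fun F => F i) θ (vals v i) (T i 0) (rep x i 0) (rep w i 0)
          ≤ ZZ (L.map fun F => F i) θ (vals v i) (T i 0) (rep x i 0) w₀ := ZZ_mono (by omega)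
        _ ≤ ZZ (L.map fun F => F i) θ (vals v i) (T i 0) (F i w₀) w₀ := (h5 w₀).2 _ h1
        _ ≤ ZZ (L.map fun F => F i) θ (vals v i) (T i 0) (F i w₀) (D.A k i 0) :=
            ZZ_mono (by omega)
        _ ≤ rep z i 0 := by rw [h4 w₀ hw₀]; exact ZZ_le h6
    rcases ZZ_mem (V := L.map fun F => F i) (θ := θ) (v := vals v i) (N := T i 0)
      (x := rep x i 0) (w := rep w i 0) with h10 | h10
    · rw [hT'] at h10 e1; omega
    · exact h10.mono_z e1
  refine ⟨(model D).add z (model D).one, fun x hx => ?_⟩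
  have hx' : x.1 < a.1 := hx
  rw [car_lt_iff] at hx'
  -- overspill
  obtain ⟨W, hW, hW1⟩ := selI (.wstar θ)
    (cons_mem hT (cons_mem (rep_mem x) (cons_mem (rep_mem z) (map_rep_mem v)))) hL
  have hW' : ∀ i, W i 0 ≤ T i 0 ∧
      TT (L.map fun F => F i) θ (vals v i) (rep x i 0) (rep z i 0) (W i 0) ∧
      ∀ w ≤ T i 0, TT (L.map fun F => F i) θ (vals v i) (rep x i 0) (rep z i 0) w → w ≤ W i 0 := by
    intro i
    have h1 := hW1 i (by simp only [List.map_cons]; exact Rel_wstar _ _ _ _ _ _)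
    simp only [List.map_cons, map_rep] at h1
    exact h1
  have hWcut : ¬ InCut D (fun i => W i 0) := by
    intro hWc
    have h1 := hall ((model D).add (mk W hW hWc) (model D).one) x hx'
    obtain ⟨i, h2, h3, h4, h5, h6⟩ := (h1.and ((rep_add (mk W hW hWc) (model D).one).and
      ((rep_mk W hW hWc).and ((rep_one (D := D)).and
        (lt_top 0 ((model D).add (mk W hW hWc) (model D).one)))))).exists
    have h7 := (hW' i).2.2 _ (by rw [hT']; exact h6.le) h2
    omega
  obtain ⟨G, hG, hG1⟩ := selI (.yu θ)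
    (cons_mem hW (cons_mem (rep_mem x) (cons_mem (rep_mem z) (map_rep_mem v)))) hL
  have hG' : ∀ i, G i 0 ≤ rep z i 0 ∧ G i 1 ≤ rep z i 0 ∧
      ∀ w' < W i 0, SI L θ (w' :: G i 1 :: G i 0 :: rep x i 0 :: vals v i) i := by
    intro i
    have h1 := hG1 i (by
      simp only [List.map_cons, map_rep]
      exact Rel_yu _ _ _ _ _ _ (hW' i).2.1)
    simp only [List.map_cons, map_rep] at h1
    exact h1
  obtain ⟨G1, hG1m, hG1'⟩ := app_mem hG (const_mem 1)
  have hGc : InCut D (fun i => G i 0) := (rep_cut z).mono (Eventually.of_forall fun i => (hG' i).1)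
  have hG1c : InCut D (fun i => G1 i 0) := (rep_cut z).mono (Eventually.of_forall fun i => by
    rw [hG1' i]; exact (hG' i).2.1)
  refine ⟨mk G hG hGc, ?_, mk G1 hG1m hG1c, fun w => ?_⟩
  · show (mk G hG hGc).1 < ((model D).add z (model D).one : Car D).1
    rw [car_lt_iff]
    filter_upwards [rep_mk G hG hGc, rep_add z (model D).one, rep_one (D := D)] with i h1 h2 h3
    rw [h1, h2, h3]
    have := (hG' i).1
    omega
  · rw [los L hL]
    obtain ⟨m, hm⟩ := rep_cut w
    filter_upwards [hm, not_inCut hWcut m, rep_mk G hG hGc, rep_mk G1 hG1m hG1c]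
      with i h1 h2 h3 h4
    have e1 : vals (w :: mk G1 hG1m hG1c :: mk G hG hGc :: x :: v) i =
        rep w i 0 :: G i 1 :: G i 0 :: rep x i 0 :: vals v i := by
      simp [vals, h3, h4, hG1']
    rw [e1]
    exact (hG' i).2.2 _ (by omega)

end Pool.Agent.H45.BRT
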