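import Pool.Agent.H45.BRT.Axioms2

/-!
# Weak Koenig's lemma and the failure of bounded Ramsey
-/

set_option autoImplicit false

namespace Pool.Agent.H45.BRT

open Filter

variable {D : Data}

lemma rep_left (x : Car D) : ∀ᶠ i in (U : Filter ℕ),
    rep ((model D).left x : Car D) i 0 = 2 * rep x i 0 := by
  filter_upwards [rep_add x x] with i hi
  show rep ((model D).add x x) i 0 = _
  exact hi.trans (by ring)

lemma rep_right (x : Car D) : ∀ᶠ i in (U : Filter ℕ),
    rep ((model D).right x : Car D) i 0 = 2 * rep x i 0 + 1 := by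
  filter_upwards [rep_add x x, rep_add ((model D).add x x) (model D).one, rep_one (D := D)]
    with i h1 h2 h3
  show rep ((model D).add ((model D).add x x) (model D).one) i 0 = _
  rw [h2, h1, h3]; ring

lemma rep_pair (x y : Car D) : ∀ᶠ i in (U : Filter ℕ),
    rep ((model D).pair x y : Car D) i 0 = pr (rep x i 0) (rep y i 0) := by
  filter_upwards [rep_add x y, rep_mul ((model D).add x y) ((model D).add x y),
    rep_add ((model D).mul ((model D).add x y) ((model D).add x y)) x] with i h1 h2 h3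
  show rep ((model D).add ((model D).mul ((model D).add x y) ((model D).add x y)) x) i 0 = _
  rw [h3, h2, h1]; rfl

lemma zero_lt_iff (x : Car D) : (model D).lt (model D).zero x ↔
    ∀ᶠ i in (U : Filter ℕ), 0 < rep x i 0 := by
  show ((model D).zero : Car D).1 < x.1 ↔ _
  rw [car_lt_iff]
  refine eventually_congr ?_
  filter_upwards [rep_zero (D := D)] with i hi
  rw [hi]

section Anc

lemma Anc.refl {x : ℕ} (h : 0 < x) : Anc x x := ⟨0, by simp, h⟩

lemma Anc.one {x : ℕ} (h : 0 < x) : Anc 1 x := by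
  refine ⟨Nat.log 2 x, ?_, one_pos⟩
  have h1 := Nat.pow_log_le_self 2 h.ne'
  have h2 := Nat.lt_pow_succ_log_self (b := 2) one_lt_two x
  symm
  rw [Nat.div_eq_iff (by positivity)]
  rw [pow_succ] at h2
  omega

/-- The child of an ancestor. -/
lemma Anc.child {y x : ℕ} (h : Anc y x) (hne : y ≠ x) :
    ∃ c, Anc c x ∧ c / 2 = y ∧ y < c := by
  obtain ⟨k, rfl, hp⟩ := h
  cases k with
  | zero => simp at hne
  | succ k =>
    have e1 : x / 2 ^ (k + 1) = x / 2 ^ k / 2 := by
      rw [pow_succ, Nat.div_div_eq_div_mul]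
    refine ⟨x / 2 ^ k, ⟨k, rfl, ?_⟩, e1.symm, ?_⟩
    · omega
    · omega

lemma Anc.parent {y x : ℕ} (h : Anc y x) (hy : 0 < y / 2) : Anc (y / 2) x := by
  obtain ⟨k, rfl, -⟩ := h
  exact ⟨k + 1, by rw [pow_succ, Nat.div_div_eq_div_mul], hy⟩

lemma Anc.not_both {y x : ℕ} (hy : 0 < y) (h1 : Anc (2 * y) x) (h2 : Anc (2 * y + 1) x) :
    False := by
  obtain ⟨k, hk, -⟩ := h1
  obtain ⟨l, hl, -⟩ := h2
  rcases lt_trichotomy k l with h | h | h
  · have : x / 2 ^ l ≤ x / 2 ^ (k + 1) := Nat.div_le_div_left (Nat.pow_le_pow_right two_pos h)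
      (by positivity)
    have e1 : x / 2 ^ (k + 1) = x / 2 ^ k / 2 := by
      rw [pow_succ, Nat.div_div_eq_div_mul]
    omega
  · subst h; omega
  · have : x / 2 ^ k ≤ x / 2 ^ (l + 1) := Nat.div_le_div_left (Nat.pow_le_pow_right two_pos h)
      (by positivity)
    have e1 : x / 2 ^ (l + 1) = x / 2 ^ l / 2 := by
      rw [pow_succ, Nat.div_div_eq_div_mul]
    omega

end Anc

theorem wkl (D : Data) : (model D).WKL := by
  rintro T₀ ⟨A, hA, rfl⟩ ⟨hT1, hT2⟩ hinf
  -- all ancestors of the elements are in the tree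
  have hgood : ∀ x : Car D, x ∈ setOf D A → ∀ᶠ i in (U : Filter ℕ), Good (A i) (rep x i 0) := by
    intro x hx
    by_contra hcon
    rw [← Ultrafilter.eventually_not] at hcon
    obtain ⟨Y, hY, hY1⟩ := selI .anc (L₁ := [rep x]) (L₂ := [A])
      (by simpa using rep_mem x) (by simpa using hA)
    have hY' : ∀ᶠ i in (U : Filter ℕ), Anc (Y i 0) (rep x i 0) ∧ A i (Y i 0) = 0 ∧
        ∀ y, Anc y (rep x i 0) → A i y = 0 → y ≤ Y i 0 := by
      filter_upwards [hcon] with i hi
      exact hY1 i (Rel_anc _ _ hi)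
    have hYc : InCut D (fun i => Y i 0) := (rep_cut x).mono (by
      filter_upwards [hY'] with i hi using Anc_le hi.1)
    have hYr := rep_mk Y hY hYc
    set y := mk Y hY hYc with hy
    have hyn : y ∉ setOf D A := by
      rw [hy, mk_mem_iff]
      intro h
      obtain ⟨i, h1, h2⟩ := (h.and hY').exists
      exact h1 h2.2.1
    apply hyn
    refine hT2 y ?_ ?_
    · rw [zero_lt_iff]
      filter_upwards [hY', hYr] with i h1 h2
      obtain ⟨⟨k, -, hk⟩, -⟩ := h1
      rw [h2]; exact hk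
    · have hch : ∀ᶠ i in (U : Filter ℕ), A i (2 * Y i 0) ≠ 0 ∨ A i (2 * Y i 0 + 1) ≠ 0 := by
        filter_upwards [hY', (mem_setOf_iff A x).1 hx] with i h1 h2
        have hne : Y i 0 ≠ rep x i 0 := by
          intro h3; rw [← h3] at h2; exact h2 h1.2.1
        obtain ⟨c, hc1, hc2, hc3⟩ := h1.1.child hne
        have h4 : A i c ≠ 0 := fun h5 => absurd (h1.2.2 c hc1 h5) (by omega)
        have h5 : c = 2 * Y i 0 ∨ c = 2 * Y i 0 + 1 := by omega
        rcases h5 with rfl | rfl
        · exact Or.inl h4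
        · exact Or.inr h4
      rw [Ultrafilter.eventually_or] at hch
      rcases hch with hch | hch
      · left
        show (model D).left y ∈ setOf D A
        rw [mem_setOf_iff]
        filter_upwards [hch, rep_left y, hYr] with i h1 h2 h3
        rw [h2, h3]; exact h1
      · right
        show (model D).right y ∈ setOf D A
        rw [mem_setOf_iff]
        filter_upwards [hch, rep_right y, hYr] with i h1 h2 h3
        rw [h2, h3]; exact h1
  obtain ⟨T, hT, hT'⟩ := exists_top D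
  obtain ⟨P, hP, hP1⟩ := selI .wklpt (L₁ := [T]) (L₂ := [A])
    (by simpa using hT) (by simpa using hA)
  have hP' : ∀ᶠ i in (U : Filter ℕ), P i 0 < T i 0 ∧ Good (A i) (P i 0) ∧
      ∀ x < T i 0, Good (A i) x → x ≤ P i 0 := by
    obtain ⟨x, hx, -⟩ := hinf (model D).zero
    filter_upwards [hgood x hx, lt_top 0 x] with i h1 h2
    have h2' : rep x i 0 < T i 0 := by rw [hT']; exact h2
    exact hP1 i (Rel_wklpt _ _ ⟨rep x i 0, h2', h1⟩)
  have hPc : ¬ InCut D (fun i => P i 0) := by
    intro hc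
    obtain ⟨x, hx, hlt⟩ := hinf (mk P hP hc)
    have hlt' : (mk P hP hc).1 < x.1 := hlt
    rw [car_lt_iff] at hlt'
    obtain ⟨i, h1, h2, h3, h4, h5⟩ := (hlt'.and ((rep_mk P hP hc).and (hP'.and
      ((hgood x hx).and (lt_top 0 x))))).exists
    have := h3.2.2 _ (by rw [hT']; exact h5) h4
    omega
  have hPbig : ∀ x : Car D, ∀ᶠ i in (U : Filter ℕ), rep x i 0 < P i 0 := by
    intro x
    obtain ⟨m, hm⟩ := rep_cut x
    filter_upwards [hm, not_inCut hPc m] with i h1 h2; omega
  obtain ⟨Q, hQ, hQ1⟩ := selI .ancset (L₁ := [P]) (L₂ := [])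
    (by simpa using hP) (by simp)
  have hQ' : ∀ i y, Q i y ≠ 0 ↔ Anc y (P i 0) := fun i => hQ1 i (Rel_ancset _ _)
  have hmem : ∀ x : Car D, x ∈ setOf D Q ↔ ∀ᶠ i in (U : Filter ℕ), Anc (rep x i 0) (P i 0) := by
    intro x
    rw [mem_setOf_iff]
    simp only [hQ']
  have hml : ∀ x : Car D, (model D).left x ∈ setOf D Q ↔
      ∀ᶠ i in (U : Filter ℕ), Anc (2 * rep x i 0) (P i 0) := by
    intro x
    rw [hmem]
    refine eventually_congr ?_
    filter_upwards [rep_left x] with i hi
    rw [hi]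
  have hmr : ∀ x : Car D, (model D).right x ∈ setOf D Q ↔
      ∀ᶠ i in (U : Filter ℕ), Anc (2 * rep x i 0 + 1) (P i 0) := by
    intro x
    rw [hmem]
    refine eventually_congr ?_
    filter_upwards [rep_right x] with i hi
    rw [hi]
  refine ⟨setOf D Q, ⟨Q, hQ, rfl⟩, ⟨⟨?_, ?_⟩, ?_, ?_⟩, ?_⟩
  · intro x hx
    rw [hmem] at hx
    rw [zero_lt_iff]
    filter_upwards [hx] with i hi
    obtain ⟨k, -, hk⟩ := hi
    exact hk
  · intro x hx0 hx
    rw [zero_lt_iff] at hx0
    rw [hml, hmr] at hx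
    rw [hmem]
    rcases hx with hx | hx
    · filter_upwards [hx, hx0] with i h1 h2
      have h3 := h1.parent (by omega)
      have e1 : 2 * rep x i 0 / 2 = rep x i 0 := by omega
      rwa [e1] at h3
    · filter_upwards [hx, hx0] with i h1 h2
      have h3 := h1.parent (by omega)
      have e1 : (2 * rep x i 0 + 1) / 2 = rep x i 0 := by omega
      rwa [e1] at h3
  · show (model D).one ∈ setOf D Q
    rw [hmem]
    filter_upwards [hPbig (model D).zero, rep_one (D := D)] with i h1 h2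
    rw [h2]
    exact Anc.one (by omega)
  · intro x hx
    rw [hmem] at hx
    rw [hml, hmr]
    have hpos : ∀ᶠ i in (U : Filter ℕ), 0 < rep x i 0 := by
      filter_upwards [hx] with i hi
      obtain ⟨k, -, hk⟩ := hi
      exact hk
    have hch : ∀ᶠ i in (U : Filter ℕ),
        Anc (2 * rep x i 0) (P i 0) ∨ Anc (2 * rep x i 0 + 1) (P i 0) := by
      filter_upwards [hx, hPbig x] with i h1 h2
      obtain ⟨c, hc1, hc2, hc3⟩ := h1.child (by omega)
      have h5 : c = 2 * rep x i 0 ∨ c = 2 * rep x i 0 + 1 := by omega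
      rcases h5 with rfl | rfl
      · exact Or.inl hc1
      · exact Or.inr hc1
    rw [Ultrafilter.eventually_or] at hch
    rcases hch with hch | hch
    · refine Or.inl ⟨hch, fun h2 => ?_⟩
      obtain ⟨i, h3, h4, h5⟩ := (hch.and (h2.and hpos)).exists
      exact Anc.not_both h5 h3 h4
    · refine Or.inr ⟨fun h2 => ?_, hch⟩
      obtain ⟨i, h3, h4, h5⟩ := (hch.and (h2.and hpos)).exists
      exact Anc.not_both h5 h4 h3
  · intro x hx
    have hx' := (hmem x).1 hx
    show x ∈ setOf D A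
    rw [mem_setOf_iff]
    filter_upwards [hx', hP'] with i h1 h2
    exact h2.2.1 _ h1

theorem not_brt (D : Data) : ¬ (model D).BRT22 := by
  intro hbrt
  -- the colouring
  obtain ⟨E, hE, hE1⟩ := selI .edge (L₁ := [fun i _ => i - 0, D.A 0]) (L₂ := [])
    (by simpa using ⟨lev_mem 0, D.A_mem 0⟩) (by simp)
  have hE' : ∀ i z, E i z ≠ 0 ↔ ∃ x y, x < y ∧ adj i (2 ^ i + 2) x y ∧ z = pr x y := by
    intro i z
    have h1 := hE1 i (Rel_edge _ _ _) z
    rw [h1]
    rw [D.A_zero]
    rfl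
  have hpr : ∀ x y x' y' : ℕ, pr x y = pr x' y' → x = x' ∧ y = y' := by
    intro x y x' y' h
    unfold pr at h
    rcases lt_trichotomy (x + y) (x' + y') with h1 | h1 | h1
    · nlinarith
    · have h2 : x = x' := by rw [h1] at h; omega
      exact ⟨h2, by omega⟩
    · nlinarith
  have hEpr : ∀ i x y, E i (pr x y) ≠ 0 ↔ x < y ∧ adj i (2 ^ i + 2) x y := by
    intro i x y
    rw [hE']
    constructor
    · rintro ⟨x', y', h1, h2, h3⟩
      obtain ⟨rfl, rfl⟩ := hpr _ _ _ _ h3
      exact ⟨h1, h2⟩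
    · rintro ⟨h1, h2⟩; exact ⟨x, y, h1, h2, rfl⟩
  have hmemE : ∀ x y : Car D, (model D).pair x y ∈ setOf D E ↔
      ∀ᶠ i in (U : Filter ℕ), rep x i 0 < rep y i 0 ∧
        adj i (2 ^ i + 2) (rep x i 0) (rep y i 0) := by
    intro x y
    rw [mem_setOf_iff]
    refine eventually_congr ?_
    filter_upwards [rep_pair x y] with i hi
    rw [hi, hEpr]
  -- the bound for the cliques
  have hlc : InCut D (fun i => (fun i _ => 2 ^ i + 1 : Seq) i 0) := by
    refine ⟨0, Eventually.of_forall fun i => ?_⟩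
    rw [D.A_zero]; exact Nat.lt_succ_self _
  set l : Car D := mk (fun i _ => 2 ^ i + 1) (pow_mem 1) hlc with hl
  have hlr : ∀ᶠ i in (U : Filter ℕ), rep l i 0 = 2 ^ i + 1 := rep_mk _ _ _
  obtain ⟨T, hT, hT'⟩ := exists_top D
  obtain ⟨H, ⟨h, hh, rfl⟩, hinf, hhom⟩ := hbrt (setOf D E) ⟨E, hE, rfl⟩ l (by
    rintro ⟨H, ⟨h, hh, rfl⟩, hhom, G, ⟨g, hg, rfl⟩, hG1, hG2, hG3, hG4⟩
    -- the enumerating function
    obtain ⟨F, hF, hF'⟩ := exists_leastF (D := D)
      (.mem (.add (.mul (.add (.var 1) (.var 0)) (.add (.var 1) (.var 0))) (.var 1)) 0) hT []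
      (L := [g]) (by simpa using hg)
    have hF1 : ∀ i j, F i j ≤ T i 0 ∧ (∀ z < F i j, ¬ g i (pr j z) ≠ 0) ∧
        (F i j = T i 0 ∨ g i (pr j (F i j)) ≠ 0) := fun i j => hF' i j
    -- its values
    have hval : ∀ j : Car D, (∀ᶠ i in (U : Filter ℕ), rep j i 0 < rep l i 0) →
        ∃ x ∈ setOf D h, (model D).pair j x ∈ setOf D g ∧
          ∀ᶠ i in (U : Filter ℕ), rep x i 0 = F i (rep j i 0) := by
      intro j hj
      have hj' : (model D).lt j l := (car_lt_iff j l).2 hj
      obtain ⟨x, hx, hjx⟩ := hG1 j hj'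
      refine ⟨x, hx, hjx, ?_⟩
      obtain ⟨K, hK, hK'⟩ := exists_app hF j
      have hgx : ∀ᶠ i in (U : Filter ℕ), g i (pr (rep j i 0) (rep x i 0)) ≠ 0 := by
        have h1 := (mem_setOf_iff g _).1 hjx
        filter_upwards [h1, rep_pair j x] with i h2 h3
        rwa [h3] at h2
      have h1 : ∀ᶠ i in (U : Filter ℕ), K i 0 ≤ rep x i 0 ∧ g i (pr (rep j i 0) (K i 0)) ≠ 0 := by
        filter_upwards [hgx, lt_top 0 x] with i h2 h3
        obtain ⟨f1, f2, f3⟩ := hF1 i (rep j i 0)
        rw [hK' i]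
        have h4 : F i (rep j i 0) ≤ rep x i 0 := by
          by_contra h5
          exact f2 _ (not_le.1 h5) h2
        refine ⟨h4, ?_⟩
        rcases f3 with f3 | f3
        · rw [hT'] at f3; omega
        · exact f3
      have hKc : InCut D (fun i => K i 0) := (rep_cut x).mono (by
        filter_upwards [h1] with i hi using hi.1)
      have h2 : (model D).pair j (mk K hK hKc) ∈ setOf D g := by
        rw [mem_setOf_iff]
        filter_upwards [h1, rep_pair j (mk K hK hKc), rep_mk K hK hKc] with i h3 h4 h5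
        rw [h4, h5]; exact h3.2
      have h3 := hG2 j hj' _ _ hjx h2
      rw [h3]
      filter_upwards [rep_mk K hK hKc] with i h4
      rw [h4, hK']
    -- violations of the clique property
    have hclq : ∀ᶠ i in (U : Filter ℕ), ∀ j k, j < k → k < 2 ^ i + 1 →
        F i j < F i k ∧ E i (pr (F i j) (F i k)) ≠ 0 := by
      by_contra hcon
      rw [← Ultrafilter.eventually_not] at hcon
      obtain ⟨W, hW, hW1⟩ := selI .viol (L₁ := [fun i _ => 2 ^ i + 1]) (L₂ := [F, E])
        (by simpa using pow_mem 1) (by simpa using ⟨hF, hE⟩)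
      have hW' : ∀ᶠ i in (U : Filter ℕ), W i 0 < W i 1 ∧ W i 1 < 2 ^ i + 1 ∧
          ¬ (F i (W i 0) < F i (W i 1) ∧ E i (pr (F i (W i 0)) (F i (W i 1))) ≠ 0) := by
        filter_upwards [hcon] with i hi
        push Not at hi
        obtain ⟨j, k, h1, h2, h3⟩ := hi
        exact hW1 i (Rel_viol _ _ _ ⟨j, k, h1, h2, fun h4 => h4.2 (h3 h4.1)⟩)
      obtain ⟨W1, hW1m, hW1'⟩ := app_mem hW (const_mem 1)
      have hlcut := rep_cut l
      have c0 : InCut D (fun i => W i 0) := hlcut.mono (by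
        filter_upwards [hW', hlr] with i h1 h2; omega)
      have c1 : InCut D (fun i => W1 i 0) := hlcut.mono (by
        filter_upwards [hW', hlr] with i h1 h2; rw [hW1']; omega)
      set j := mk W hW c0 with hj
      set k := mk W1 hW1m c1 with hk
      have hjr : ∀ᶠ i in (U : Filter ℕ), rep j i 0 = W i 0 := rep_mk _ _ _
      have hkr : ∀ᶠ i in (U : Filter ℕ), rep k i 0 = W i 1 := by
        filter_upwards [rep_mk W1 hW1m c1] with i hi
        rw [hi, hW1']
      obtain ⟨x, hx, hjx, hxr⟩ := hval j (by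
        filter_upwards [hW', hjr, hlr] with i h1 h2 h3; omega)
      obtain ⟨y, hy, hky, hyr⟩ := hval k (by
        filter_upwards [hW', hkr, hlr] with i h1 h2 h3; omega)
      have hlt := hG3 j k ((car_lt_iff j k).2 (by
        filter_upwards [hW', hjr, hkr] with i h1 h2 h3; omega)) ((car_lt_iff k l).2 (by
        filter_upwards [hW', hkr, hlr] with i h1 h2 h3; omega)) x y hjx hky
      have hxy := (hmemE x y).1 (hhom x hx y hy hlt)
      obtain ⟨i, h1, h2, h3, h4, h5, h6⟩ :=
        (hxy.and (hW'.and (hjr.and (hkr.and (hxr.and hyr))))).exists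
      rw [h5, h6, h3, h4] at h1
      exact h2.2.2 ⟨h1.1, (hEpr _ _ _).2 h1⟩
    obtain ⟨i, hi⟩ := hclq.exists
    have hinj : Set.InjOn (F i) (Finset.range (2 ^ i + 1) : Set ℕ) := by
      intro j hj k hk hjk
      rw [Finset.coe_range, Set.mem_Iio] at hj hk
      rcases lt_trichotomy j k with h1 | h1 | h1
      · have := (hi j k h1 hk).1; omega
      · exact h1
      · have := (hi k j h1 hj).1; omega
    have hadj : ∀ j k, j < k → k < 2 ^ i + 1 → adj i (2 ^ i + 2) (F i j) (F i k) :=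
      fun j k h1 h2 => ((hEpr _ _ _).1 (hi j k h1 h2).2).2
    have hQ : IsClq i (2 ^ i + 2) ((Finset.range (2 ^ i + 1)).image (F i)) := by
      have h2i : 0 < 2 ^ i := by positivity
      constructor
      · intro x hx
        obtain ⟨j, hj, rfl⟩ := Finset.mem_image.1 hx
        rw [Finset.mem_range] at hj
        by_cases hj0 : j = 0
        · subst hj0
          have h1 := adj_bounds (hadj 0 1 one_pos (by omega))
          have h2 := (hi 0 1 one_pos (by omega)).1
          omega
        · have h1 := adj_bounds (hadj 0 j (by omega) hj)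
          have h2 := (hi 0 j (by omega) hj).1
          omega
      · intro x hx y hy hxy
        obtain ⟨j, hj, rfl⟩ := Finset.mem_image.1 hx
        obtain ⟨k, hk, rfl⟩ := Finset.mem_image.1 hy
        rw [Finset.mem_range] at hj hk
        rcases lt_trichotomy j k with h1 | h1 | h1
        · exact hadj j k h1 hk
        · subst h1; omega
        · have := (hi k j h1 hj).1; omega
    have hcard := clique_card i _ _ hQ
    rw [Finset.card_image_of_injOn hinj, Finset.card_range] at hcard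
    omega)
  -- no infinite homogeneous set for the colour `0`
  obtain ⟨n, hn | hn⟩ := hits (D := D) hh
  · obtain ⟨x, hx, hlt⟩ := hinf (mk (D.A n) (D.A_mem n) (inCut_A n))
    have hlt' : (mk (D.A n) (D.A_mem n) (inCut_A n)).1 < x.1 := hlt
    rw [car_lt_iff] at hlt'
    have hx' := (mem_setOf_iff h x).1 hx
    obtain ⟨i, h1, h2, h3, h4, h5⟩ := (hn.and (hlt'.and ((rep_mk (D.A n) (D.A_mem n)
      (inCut_A n)).and (hx'.and (lt_top n x))))).exists
    exact h4 (h1 _ (by omega) h5)
  · obtain ⟨W, hW, hW1⟩ := selI .pick (L₁ := [D.A n]) (L₂ := [h, E])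
      (by simpa using D.A_mem n) (by simpa using ⟨hh, hE⟩)
    have hW' : ∀ᶠ i in (U : Filter ℕ), W i 0 < W i 1 ∧ W i 1 < D.A n i 0 ∧
        h i (W i 0) ≠ 0 ∧ h i (W i 1) ≠ 0 ∧ E i (pr (W i 0) (W i 1)) ≠ 0 := by
      filter_upwards [hn] with i hi
      obtain ⟨x, y, h1, h2, h3, h4, h5⟩ := hi
      exact hW1 i (Rel_pick _ _ _ ⟨x, y, h1, h2, h3, h4, (hEpr _ _ _).2 ⟨h1, h5⟩⟩)
    obtain ⟨W1, hW1m, hW1'⟩ := app_mem hW (const_mem 1)
    have c0 : InCut D (fun i => W i 0) := (inCut_A n).mono (by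
      filter_upwards [hW'] with i h1; omega)
    have c1 : InCut D (fun i => W1 i 0) := (inCut_A n).mono (by
      filter_upwards [hW'] with i h1; rw [hW1']; omega)
    have hxr := rep_mk W hW c0
    have hyr := rep_mk W1 hW1m c1
    set x := mk W hW c0 with hxd
    set y := mk W1 hW1m c1 with hyd
    have hx : x ∈ setOf D h := by
      rw [mem_setOf_iff]
      filter_upwards [hW', hxr] with i h1 h2
      rw [h2]; exact h1.2.2.1
    have hy : y ∈ setOf D h := by
      rw [mem_setOf_iff]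
      filter_upwards [hW', hyr] with i h1 h2
      rw [h2, hW1']; exact h1.2.2.2.1
    have hlt : (model D).lt x y := (car_lt_iff x y).2 (by
      filter_upwards [hW', hxr, hyr] with i h1 h2 h3
      rw [h2, h3, hW1']; exact h1.1)
    apply hhom x hx y hy hlt
    rw [hmemE]
    filter_upwards [hW', hxr, hyr] with i h1 h2 h3
    rw [h2, h3, hW1']
    exact (hEpr _ _ _).1 h1.2.2.2.2

/-- **There is a model of `RCA₀ + WKL + BΣ⁰₂` in which `BRT²₂` fails.** -/
theorem main : ∃ 𝔐 : Model, 𝔐.RCA0 ∧ 𝔐.WKL ∧ 𝔐.BSigma2 ∧ ¬ 𝔐.BRT22 := by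
  obtain ⟨D⟩ := exists_data
  exact ⟨model D, ⟨paMinus D, iSigma1 D, delta1CA D⟩, wkl D, bSigma2 D, not_brt D⟩

end Pool.Agent.H45.BRT
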