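import Pool.Agent.H45.BRT.Comb

/-!
# Large sets
-/

set_option autoImplicit false

namespace Pool.Agent.H45.BRT

/-- A set of cells is structured if after the removal of few cells it still contains the pattern
which is needed in one step. -/
def Struct (a : ℕ) (A : Set (ℕ × ℕ)) : Prop :=
  ∀ R : Finset (ℕ × ℕ), R.card ≤ rho a → ∃ p₀ p q r u₀ u w, p₀ < p ∧ p < q ∧ q < r ∧
    (p₀, u₀) ∈ A ∧ (p, q) ∈ A ∧ (q, u) ∈ A ∧ (r, w) ∈ A ∧
    (p₀, u₀) ∉ R ∧ (p, q) ∉ R ∧ (q, u) ∉ R ∧ (r, w) ∉ R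

/-- A set of cells is thick if all its partitions into few parts have a structured part. -/
def Thick (t a : ℕ) (A : Set (ℕ × ℕ)) : Prop :=
  ∀ χ : ℕ × ℕ → ℕ, (∀ s, χ s < a ^ t) → ∃ j, Struct a {s ∈ A | χ s = j}

/-- Large subsets of the block of level `i` which starts at `a`. -/
def Large : ℕ → ℕ → ℕ → Set ℕ → Prop
  | 0, _, a, X => a ∈ X
  | i + 1, t, a, X =>
    Thick t a {pu | pu.1 < gg a ∧ pu.2 < gg a ∧ Large i t (C i a (pu.1 * gg a + pu.2)) X}

lemma Struct.mono {a : ℕ} {A B : Set (ℕ × ℕ)} (h : Struct a A) (hAB : A ⊆ B) : Struct a B := by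
  intro R hR
  obtain ⟨p₀, p, q, r, u₀, u, w, h1, h2, h3, h4, h5, h6, h7, h8⟩ := h R hR
  exact ⟨p₀, p, q, r, u₀, u, w, h1, h2, h3, hAB h4, hAB h5, hAB h6, hAB h7, h8⟩

lemma Thick.struct {t a : ℕ} {A : Set (ℕ × ℕ)} (ha : 1 ≤ a) (h : Thick t a A) : Struct a A := by
  obtain ⟨j, hj⟩ := h (fun _ => 0) (fun _ => Nat.pos_of_ne_zero (pow_ne_zero _ (by omega)))
  exact hj.mono fun s hs => hs.1

lemma Struct.nonempty {a : ℕ} {A : Set (ℕ × ℕ)} (h : Struct a A) : A.Nonempty := by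
  obtain ⟨p₀, p, q, r, u₀, u, w, h1, h2, h3, h4, -⟩ := h ∅ (by simp)
  exact ⟨_, h4⟩

/-- Partition of thick sets. -/
lemma Thick.color {t a c : ℕ} {A : Set (ℕ × ℕ)} (ha : 1 ≤ a) (hc : c ≤ a) (h : Thick (t + 1) a A)
    (κ : ℕ × ℕ → ℕ) (hκ : ∀ s ∈ A, κ s < c) : ∃ j, j < c ∧ Thick t a {s ∈ A | κ s = j} := by
  by_contra hcon
  push Not at hcon
  have hat : 0 < a ^ t := Nat.pos_of_ne_zero (pow_ne_zero _ (by omega))
  have hat' : 0 < a ^ (t + 1) := Nat.pos_of_ne_zero (pow_ne_zero _ (by omega))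
  have h1 : ∀ j, ∃ χ : ℕ × ℕ → ℕ, (j < c → (∀ s, χ s < a ^ t) ∧
      ∀ j', ¬ Struct a {s ∈ {s ∈ A | κ s = j} | χ s = j'}) := by
    intro j
    by_cases hj : j < c
    · have := hcon j hj
      unfold Thick at this
      push Not at this
      obtain ⟨χ, h2, h3⟩ := this
      exact ⟨χ, fun _ => ⟨h2, h3⟩⟩
    · exact ⟨fun _ => 0, fun h => absurd h hj⟩
  choose χ hχ using h1
  classical
  obtain ⟨j, hj⟩ := h (fun s => if κ s < c then κ s * a ^ t + χ (κ s) s else 0) (by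
    intro s
    by_cases hs : κ s < c
    · simp only [hs, if_true]
      have h2 := (hχ (κ s) hs).1 s
      calc κ s * a ^ t + χ (κ s) s < κ s * a ^ t + a ^ t := by omega
        _ = (κ s + 1) * a ^ t := by ring
        _ ≤ a * a ^ t := Nat.mul_le_mul_right _ (by omega)
        _ = a ^ (t + 1) := by ring
    · simp only [hs, if_false]
      exact hat')
  have key : ∀ s ∈ {s ∈ A | (if κ s < c then κ s * a ^ t + χ (κ s) s else 0) = j},
      κ s = j / a ^ t ∧ χ (j / a ^ t) s = j % a ^ t := by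
    rintro s ⟨hs, hs'⟩
    have hsc := hκ s hs
    rw [if_pos hsc] at hs'
    have h2 := (hχ (κ s) hsc).1 s
    have h3 : j / a ^ t = κ s := by
      rw [← hs', mul_comm, Nat.mul_add_div hat, Nat.div_eq_of_lt h2, add_zero]
    refine ⟨h3.symm, ?_⟩
    rw [h3, ← hs', mul_comm, Nat.mul_add_mod, Nat.mod_eq_of_lt h2]
  obtain ⟨s, hs⟩ := hj.nonempty
  have hjc : j / a ^ t < c := by
    rw [← (key s hs).1]; exact hκ s hs.1
  refine (hχ _ hjc).2 (j % a ^ t) (hj.mono ?_)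
  intro s hs
  exact ⟨⟨hs.1, (key s hs).1⟩, (key s hs).2⟩

lemma Thick.mono {t a : ℕ} {A B : Set (ℕ × ℕ)} (h : Thick t a A) (hAB : A ⊆ B) : Thick t a B := by
  intro χ hχ
  obtain ⟨j, hj⟩ := h χ hχ
  exact ⟨j, hj.mono fun s hs => ⟨hAB hs.1, hs.2⟩⟩

lemma Large.nonempty {i : ℕ} : ∀ {t a : ℕ} {X : Set ℕ}, 1 ≤ a → Large i t a X →
    ∃ x ∈ X, a ≤ x ∧ x < e i a := by
  induction i with
  | zero => intro t a X _ h; exact ⟨a, h, le_refl _, by simp [e]⟩
  | succ i ih =>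
    intro t a X ha h
    obtain ⟨s, h1, h2, h3⟩ := (Thick.struct ha h).nonempty
    have hle := le_C i a (s.1 * gg a + s.2)
    obtain ⟨x, hx, h4, h5⟩ := ih (by omega) h3
    refine ⟨x, hx, by omega, ?_⟩
    rw [← C_succ] at h5
    rw [e_succ]
    have := (C_strictMono i a).monotone (show s.1 * gg a + s.2 + 1 ≤ gg a * gg a from idx_lt h1 h2)
    omega

/-- Partition of large sets. -/
lemma Large.color {i : ℕ} : ∀ {t a c : ℕ} {X : Set ℕ}, 1 ≤ a → c ≤ a → Large i (t + 1) a X →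
    ∀ F : ℕ → ℕ, (∀ x, F x < c) → ∃ j, j < c ∧ Large i t a {x ∈ X | F x = j} := by
  induction i with
  | zero =>
    intro t a c X _ _ h F hF
    exact ⟨F a, hF a, h, rfl⟩
  | succ i ih =>
    intro t a c X ha hc h F hF
    have h1 : ∀ s : ℕ × ℕ, ∃ j, Large i (t + 1) (C i a (s.1 * gg a + s.2)) X → j < c ∧
        Large i t (C i a (s.1 * gg a + s.2)) {x ∈ X | F x = j} := by
      intro s
      by_cases hs : Large i (t + 1) (C i a (s.1 * gg a + s.2)) X
      · have hle := le_C i a (s.1 * gg a + s.2)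
        obtain ⟨j, hj⟩ := ih (by omega) (show c ≤ _ by omega) hs F hF
        exact ⟨j, fun _ => hj⟩
      · exact ⟨0, fun h => absurd h hs⟩
    choose κ hκ using h1
    obtain ⟨j, hj, h2⟩ := Thick.color ha hc h κ (fun s hs => (hκ s hs.2.2).1)
    refine ⟨j, hj, h2.mono ?_⟩
    rintro s ⟨⟨h3, h4, h5⟩, h6⟩
    refine ⟨h3, h4, ?_⟩
    have := (hκ s h5).2
    rwa [h6] at this

/-- The full grid is thick. -/
lemma thick_full {t a : ℕ} (ha : 1 ≤ a) (ht : t ≤ a) :
    Thick t a {pu | pu.1 < gg a ∧ pu.2 < gg a} := by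
  classical
  intro χ hχ'
  have hχ : ∀ s, χ s < a ^ a := fun s => (hχ' s).trans_le (Nat.pow_le_pow_right ha ht)
  set Cc := a ^ a with hCc
  by_contra hcon
  push Not at hcon
  have h1 : ∀ j, ∃ R : Finset (ℕ × ℕ), R.card ≤ rho a ∧ ¬ ∃ p₀ p q r u₀ u w, p₀ < p ∧ p < q ∧
      q < r ∧
      (p₀, u₀) ∈ {s ∈ {pu : ℕ × ℕ | pu.1 < gg a ∧ pu.2 < gg a} | χ s = j} ∧
      (p, q) ∈ {s ∈ {pu : ℕ × ℕ | pu.1 < gg a ∧ pu.2 < gg a} | χ s = j} ∧
      (q, u) ∈ {s ∈ {pu : ℕ × ℕ | pu.1 < gg a ∧ pu.2 < gg a} | χ s = j} ∧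
      (r, w) ∈ {s ∈ {pu : ℕ × ℕ | pu.1 < gg a ∧ pu.2 < gg a} | χ s = j} ∧
      (p₀, u₀) ∉ R ∧ (p, q) ∉ R ∧ (q, u) ∉ R ∧ (r, w) ∉ R := by
    intro j
    have := hcon j
    unfold Struct at this
    rw [not_forall] at this
    obtain ⟨R, hR⟩ := this
    rw [Classical.not_imp] at hR
    exact ⟨R, hR⟩
  choose R hR hR' using h1
  set RR := (Finset.range Cc).biUnion R with hRR
  have hRRc : RR.card ≤ Cc * rho a := by
    refine le_trans Finset.card_biUnion_le ?_
    calc ∑ j ∈ Finset.range Cc, (R j).card ≤ ∑ _j ∈ Finset.range Cc, rho a :=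
          Finset.sum_le_sum fun j _ => hR j
      _ = Cc * rho a := by simp
  set B := RR.image Prod.fst ∪ RR.image Prod.snd with hB
  have hBc : B.card ≤ 2 * (Cc * rho a) := by
    calc B.card ≤ (RR.image Prod.fst).card + (RR.image Prod.snd).card := Finset.card_union_le _ _
      _ ≤ RR.card + RR.card := Nat.add_le_add Finset.card_image_le Finset.card_image_le
      _ ≤ 2 * (Cc * rho a) := by omega
  set S := Finset.range (gg a) \ B with hS
  have hSc : 3 * 2 ^ Cc < S.card := by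
    have h2 : (Finset.range (gg a)).card - B.card ≤ S.card := Finset.le_card_sdiff _ _
    rw [Finset.card_range] at h2
    have h3 : gg a = 2 * (Cc * rho a) + 3 * 2 ^ Cc + 1 := rfl
    omega
  -- the set of the colours of a row
  set f : ℕ → Finset ℕ := fun q => (S.image fun u => χ (q, u)) with hf
  have hmaps : ∀ q ∈ S, f q ∈ (Finset.range Cc).powerset := by
    intro q _
    rw [Finset.mem_powerset]
    intro j hj
    rw [hf, Finset.mem_image] at hj
    obtain ⟨u, _, rfl⟩ := hj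
    exact Finset.mem_range.2 (hχ _)
  obtain ⟨Y, -, hY⟩ := Finset.exists_lt_card_fiber_of_mul_lt_card_of_maps_to (n := 3) hmaps (by
    rw [Finset.card_powerset, Finset.card_range]; omega)
  -- four rows with the same colours
  set Z := S.filter (fun q => f q = Y) with hZ
  obtain ⟨Z', hZ', hZc⟩ := Finset.exists_subset_card_eq (show 4 ≤ Z.card by omega)
  set o := Z'.orderEmbOfFin hZc with ho
  have hmem : ∀ k, o k ∈ S ∧ f (o k) = Y := by
    intro k
    have := hZ' (Finset.orderEmbOfFin_mem Z' hZc k)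
    rw [hZ, Finset.mem_filter] at this
    exact this
  set p₀ := o 0 with hp₀
  set p := o 1 with hp
  set q := o 2 with hq
  set r := o 3 with hr
  have o1 : p₀ < p := o.strictMono (by decide)
  have o2 : p < q := o.strictMono (by decide)
  have o3 : q < r := o.strictMono (by decide)
  set j := χ (p, q) with hj
  have hjY : j ∈ Y := by
    rw [← (hmem 1).2, hf]
    exact Finset.mem_image.2 ⟨q, (hmem 2).1, rfl⟩
  have hrow : ∀ k, ∃ u ∈ S, χ (o k, u) = j := by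
    intro k
    have := hjY
    rw [← (hmem k).2, hf] at this
    exact Finset.mem_image.1 this
  obtain ⟨u₀, hu₀, hu₀'⟩ := hrow 0
  obtain ⟨u, hu, hu'⟩ := hrow 2
  obtain ⟨w, hw, hw'⟩ := hrow 3
  have hjC : j < Cc := hχ _
  have hSlt : ∀ s ∈ S, s < gg a := by
    intro s hs
    rw [hS, Finset.mem_sdiff, Finset.mem_range] at hs
    exact hs.1
  have hnR : ∀ s ∈ S, ∀ v, (s, v) ∉ R j := by
    intro s hs v hsv
    rw [hS, Finset.mem_sdiff] at hs
    apply hs.2
    rw [hB, Finset.mem_union]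
    left
    rw [Finset.mem_image]
    exact ⟨(s, v), Finset.mem_biUnion.2 ⟨j, Finset.mem_range.2 hjC, hsv⟩, rfl⟩
  exact hR' j ⟨p₀, p, q, r, u₀, u, w, o1, o2, o3,
    ⟨⟨hSlt _ (hmem 0).1, hSlt _ hu₀⟩, hu₀'⟩,
    ⟨⟨hSlt _ (hmem 1).1, hSlt _ (hmem 2).1⟩, rfl⟩,
    ⟨⟨hSlt _ (hmem 2).1, hSlt _ hu⟩, hu'⟩,
    ⟨⟨hSlt _ (hmem 3).1, hSlt _ hw⟩, hw'⟩,
    hnR _ (hmem 0).1 _, hnR _ (hmem 1).1 _, hnR _ (hmem 2).1 _, hnR _ (hmem 3).1 _⟩

/-- Blocks are large. -/
lemma large_univ {i : ℕ} : ∀ {t a : ℕ}, 1 ≤ a → t ≤ a → Large i t a Set.univ := by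
  induction i with
  | zero => intro t a _ _; exact Set.mem_univ _
  | succ i ih =>
    intro t a ha ht
    refine (thick_full ha ht).mono ?_
    rintro s ⟨h1, h2⟩
    have hle := le_C i a (s.1 * gg a + s.2)
    exact ⟨h1, h2, ih (by omega) (by omega)⟩

/-- **One step of the construction.** -/
theorem step {i t a c : ℕ} {X : Set ℕ} (ha : 1 ≤ a) (h : Large (i + 1) (t + 1) a X)
    (F : ℕ → ℕ) : ∃ a' j, Large i t a' {x ∈ X | c ≤ a → (∀ x, F x < c) → F x = j} ∧
      (a + 1) ^ 2 ≤ a' ∧ e i a' ≤ e (i + 1) a ∧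
      (∃ x ∈ X, (c ≤ a → (∀ x, F x < c) → F x = j) ∧ a ≤ x ∧ x < a') ∧
      (c ≤ a → ∀ x < c, ¬ (a' ≤ F x ∧ F x < e i a')) ∧
      ((∀ x, a' ≤ x → x < e i a' → F x = 0) ∨
        ∃ x y, x < y ∧ y < a' ∧ F x ≠ 0 ∧ F y ≠ 0 ∧ adj (i + 1) a x y) ∧
      ∀ x y, a' ≤ x → y < e i a' → adj i a' x y → adj (i + 1) a x y := by
  classical
  -- the colour
  obtain ⟨j, hj⟩ : ∃ j, Large (i + 1) t a {x ∈ X | c ≤ a → (∀ x, F x < c) → F x = j} := by
    by_cases hc : c ≤ a ∧ ∀ x, F x < c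
    · obtain ⟨j, -, hj⟩ := Large.color ha hc.1 h F hc.2
      refine ⟨j, ?_⟩
      have : {x ∈ X | c ≤ a → (∀ x, F x < c) → F x = j} = {x ∈ X | F x = j} := by
        ext x; simp only [Set.mem_ofPred_eq]
        constructor
        · rintro ⟨h1, h2⟩; exact ⟨h1, h2 hc.1 hc.2⟩
        · rintro ⟨h1, h2⟩; exact ⟨h1, fun _ _ => h2⟩
      rw [this]; exact hj
    · obtain ⟨j, -, hj⟩ := Large.color ha le_rfl h (fun _ => 0) (fun _ => ha)
      refine ⟨0, ?_⟩
      have hj0 : j = 0 := by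
        obtain ⟨x, hx, -⟩ := Large.nonempty ha hj
        exact hx.2.symm
      have : {x ∈ X | c ≤ a → (∀ x, F x < c) → F x = 0} = {x ∈ X | 0 = j} := by
        ext x; simp only [Set.mem_ofPred_eq]
        constructor
        · rintro ⟨h1, -⟩; exact ⟨h1, hj0.symm⟩
        · rintro ⟨h1, -⟩; exact ⟨h1, fun h2 h3 => absurd ⟨h2, h3⟩ hc⟩
      rw [this]; exact hj
  set X' := {x ∈ X | c ≤ a → (∀ x, F x < c) → F x = j} with hX'
  set G := gg a with hG
  -- the forbidden cells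
  set cellOf : ℕ → ℕ × ℕ := fun y =>
    if hy : ∃ s, C i a s ≤ y ∧ y < C i a (s + 1) then (hy.choose / G, hy.choose % G) else (0, 0)
    with hcellOf
  have hcell : ∀ p u y, p < G → u < G → C i a (p * G + u) ≤ y → y < C i a (p * G + u + 1) →
      cellOf y = (p, u) := by
    intro p u y hp hu h1 h2
    have hy : ∃ s, C i a s ≤ y ∧ y < C i a (s + 1) := ⟨_, h1, h2⟩
    have h3 : hy.choose = p * G + u := cell_unique hy.choose_spec.1 hy.choose_spec.2 h1 h2
    rw [hcellOf]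
    simp only [dif_pos hy, h3]
    have hG0 : 0 < G := gg_pos a
    rw [Prod.mk.injEq]
    constructor
    · rw [mul_comm, Nat.mul_add_div hG0, Nat.div_eq_of_lt hu, add_zero]
    · rw [mul_comm, Nat.mul_add_mod, Nat.mod_eq_of_lt hu]
  set R : Finset (ℕ × ℕ) := ((Finset.range ((a + 1) ^ 2)).image fun s => (s / G, s % G)) ∪
    ((Finset.range (min c a)).image fun x => cellOf (F x)) with hR
  have hRc : R.card ≤ rho a := by
    calc R.card ≤ _ + _ := Finset.card_union_le _ _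
      _ ≤ (Finset.range ((a + 1) ^ 2)).card + (Finset.range (min c a)).card :=
          Nat.add_le_add Finset.card_image_le Finset.card_image_le
      _ ≤ rho a := by
          rw [Finset.card_range, Finset.card_range]; unfold rho
          have : min c a ≤ a := min_le_right _ _
          omega
  obtain ⟨p₀, p, q, r, u₀, u, w, o1, o2, o3, hA0, hA1, hA2, hA3, hR0, hR1, hR2, hR3⟩ :=
    Thick.struct ha hj R hRc
  -- the common properties of the cells outside `R`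
  have hmono := C_strictMono i a
  have common : ∀ P U, P < G → U < G → (P, U) ∉ R → Large i t (C i a (P * G + U)) X' → p₀ < P →
      Large i t (C i a (P * G + U)) X' ∧
      (a + 1) ^ 2 ≤ C i a (P * G + U) ∧ e i (C i a (P * G + U)) ≤ e (i + 1) a ∧
      (∃ x ∈ X, (c ≤ a → (∀ x, F x < c) → F x = j) ∧ a ≤ x ∧ x < C i a (P * G + U)) ∧
      (c ≤ a → ∀ x < c, ¬ (C i a (P * G + U) ≤ F x ∧ F x < e i (C i a (P * G + U)))) ∧
      ∀ x y, C i a (P * G + U) ≤ x → y < e i (C i a (P * G + U)) →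
        adj i (C i a (P * G + U)) x y → adj (i + 1) a x y := by
    intro P U hP hU hPU hLg hp₀P
    have hG0 : 0 < G := gg_pos a
    refine ⟨hLg, ?_, ?_, ?_, ?_, ?_⟩
    · -- growth
      by_contra hlt
      have h2 : P * G + U < (a + 1) ^ 2 := by
        have := le_C i a (P * G + U); omega
      apply hPU
      rw [hR, Finset.mem_union]
      left
      rw [Finset.mem_image]
      refine ⟨P * G + U, Finset.mem_range.2 h2, ?_⟩
      rw [Prod.mk.injEq]
      constructor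
      · rw [mul_comm, Nat.mul_add_div hG0, Nat.div_eq_of_lt hU, add_zero]
      · rw [mul_comm, Nat.mul_add_mod, Nat.mod_eq_of_lt hU]
    · rw [← C_succ, e_succ]
      exact hmono.monotone (idx_lt hP hU)
    · -- an element of the set in an earlier cell
      have hle := le_C i a (p₀ * G + u₀)
      have hA0' : Large i t (C i a (p₀ * G + u₀)) X' := hA0.2.2
      obtain ⟨x, hx, h2, h3⟩ := Large.nonempty (by omega) hA0'
      refine ⟨x, hx.1, hx.2, by omega, ?_⟩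
      rw [← C_succ] at h3
      have := hmono.monotone (show p₀ * G + u₀ + 1 ≤ P * G + U from
        idx_lt_idx hA0.2.1 hp₀P)
      omega
    · intro hca x hx hF
      apply hPU
      rw [hR, Finset.mem_union]
      right
      rw [Finset.mem_image]
      refine ⟨x, Finset.mem_range.2 (lt_min hx (by omega)), ?_⟩
      rw [← C_succ] at hF
      exact hcell P U _ hP hU hF.1 hF.2
    · intro x y hx hy hadj
      rw [← C_succ] at hy
      exact Or.inl ⟨P * G + U, idx_lt hP hU, hx, hy, hadj⟩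
  by_cases hc1 : ∀ x, C i a (p * G + q) ≤ x → x < C i a (p * G + q + 1) → F x = 0
  · obtain ⟨g1, g2, g3, g4, g5, g6⟩ := common p q hA1.1 hA1.2.1 hR1 hA1.2.2 o1
    refine ⟨C i a (p * G + q), j, g1, g2, g3, g4, g5, Or.inl ?_, g6⟩
    rw [← C_succ]; exact hc1
  by_cases hc2 : ∀ x, C i a (q * G + u) ≤ x → x < C i a (q * G + u + 1) → F x = 0
  · obtain ⟨g1, g2, g3, g4, g5, g6⟩ := common q u hA2.1 hA2.2.1 hR2 hA2.2.2 (by omega)
    refine ⟨C i a (q * G + u), j, g1, g2, g3, g4, g5, Or.inl ?_, g6⟩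
    rw [← C_succ]; exact hc2
  · push Not at hc1 hc2
    obtain ⟨x, hx1, hx2, hx3⟩ := hc1
    obtain ⟨y, hy1, hy2, hy3⟩ := hc2
    obtain ⟨g1, g2, g3, g4, g5, g6⟩ := common r w hA3.1 hA3.2.1 hR3 hA3.2.2 (by omega)
    refine ⟨C i a (r * G + w), j, g1, g2, g3, g4, g5, Or.inr ⟨x, y, ?_, ?_, hx3, hy3, ?_⟩, g6⟩
    · have := hmono.monotone (show p * G + q + 1 ≤ q * G + u from idx_lt_idx hA1.2.1 o2)
      omega
    · have := hmono.monotone (show q * G + u + 1 ≤ r * G + w from idx_lt_idx hA2.2.1 o3)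
      omega
    · exact Or.inr ⟨p, q, u, o2, hA1.2.1, hA2.2.1, hx1, hx2, hy1, hy2⟩

end Pool.Agent.H45.BRT
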