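import Pool.Agent.H45.BRT.Defs
import Pool.Agent.H45.BRT.Large

/-!
# A countable family of internal functions closed under selection
-/

set_option autoImplicit false

namespace Pool.Agent.H45.BRT

/-- Internal functions: sequences of functions. An internal number is given by the values at `0`. -/
abbrev Seq := ℕ → ℕ → ℕ

section closure

variable {ι : Type} (gen : ℕ → Seq) (Rel : ι → List ℕ → List (ℕ → ℕ) → (ℕ → ℕ) → Prop)

open Classical in
/-- Selection. -/
noncomputable def sel (j : ι) (l₁ : List ℕ) (l₂ : List (ℕ → ℕ)) : ℕ → ℕ :=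
  if h : ∃ f, Rel j l₁ l₂ f then h.choose else fun _ => 0

/-- The stages of the closure. -/
def stage : ℕ → Set Seq
  | 0 => Set.range gen
  | n + 1 => stage n ∪ {F | ∃ (j : ι) (L₁ L₂ : List Seq), (∀ G ∈ L₁, G ∈ stage n) ∧
      (∀ G ∈ L₂, G ∈ stage n) ∧
      F = fun i => sel Rel j (L₁.map fun G => G i 0) (L₂.map fun G => G i)}

/-- The closure. -/
def HH : Set Seq := ⋃ n, stage gen Rel n

lemma stage_mono {m n : ℕ} (h : m ≤ n) : stage gen Rel m ⊆ stage gen Rel n := by
  induction h with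
  | refl => exact subset_rfl
  | step _ ih => exact ih.trans Set.subset_union_left

lemma gen_mem (n : ℕ) : gen n ∈ HH gen Rel := Set.mem_iUnion.2 ⟨0, n, rfl⟩

lemma list_mem {L : List Seq} (h : ∀ G ∈ L, G ∈ HH gen Rel) :
    ∃ n, ∀ G ∈ L, G ∈ stage gen Rel n := by
  induction L with
  | nil => exact ⟨0, by simp⟩
  | cons a l ih =>
    obtain ⟨n, hn⟩ := ih fun G hG => h G (List.mem_cons_of_mem _ hG)
    obtain ⟨m, hm⟩ := Set.mem_iUnion.1 (h a List.mem_cons_self)
    refine ⟨max m n, fun G hG => ?_⟩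
    rcases List.mem_cons.1 hG with rfl | hG
    · exact stage_mono gen Rel (le_max_left _ _) hm
    · exact stage_mono gen Rel (le_max_right _ _) (hn G hG)

lemma sel_mem (j : ι) {L₁ L₂ : List Seq} (h₁ : ∀ G ∈ L₁, G ∈ HH gen Rel)
    (h₂ : ∀ G ∈ L₂, G ∈ HH gen Rel) : ∃ F ∈ HH gen Rel, ∀ i,
      (∃ f, Rel j (L₁.map fun G => G i 0) (L₂.map fun G => G i) f) →
      Rel j (L₁.map fun G => G i 0) (L₂.map fun G => G i) (F i) := by
  obtain ⟨n₁, hn₁⟩ := list_mem gen Rel h₁
  obtain ⟨n₂, hn₂⟩ := list_mem gen Rel h₂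
  refine ⟨fun i => sel Rel j (L₁.map fun G => G i 0) (L₂.map fun G => G i),
    Set.mem_iUnion.2 ⟨max n₁ n₂ + 1, Or.inr ⟨j, L₁, L₂,
      fun G hG => stage_mono gen Rel (le_max_left _ _) (hn₁ G hG),
      fun G hG => stage_mono gen Rel (le_max_right _ _) (hn₂ G hG), rfl⟩⟩, ?_⟩
  intro i h
  show Rel j _ _ (sel Rel j _ _)
  unfold sel
  rw [dif_pos h]
  exact h.choose_spec

lemma stage_countable [Countable ι] (n : ℕ) : (stage gen Rel n).Countable := by
  induction n with
  | zero => exact Set.countable_range _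
  | succ n ih =>
    refine ih.union ?_
    have : Countable (stage gen Rel n) := ih.to_subtype
    refine (Set.countable_range (fun p : ι × List (stage gen Rel n) × List (stage gen Rel n) =>
      (fun i => sel Rel p.1 ((p.2.1.map Subtype.val).map fun G => G i 0)
        ((p.2.2.map Subtype.val).map fun G => G i) : Seq))).mono ?_
    rintro F ⟨j, L₁, L₂, h₁, h₂, rfl⟩
    lift L₁ to List (stage gen Rel n) using h₁
    lift L₂ to List (stage gen Rel n) using h₂
    exact ⟨⟨j, L₁, L₂⟩, rfl⟩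

lemma HH_countable [Countable ι] : (HH gen Rel).Countable :=
  Set.countable_iUnion fun n => stage_countable gen Rel n

/-- An enumeration in which all pairs occur infinitely often. -/
lemma exists_enum [Countable ι] : ∃ f : ℕ → Seq × Seq,
    (∀ n, (f n).1 ∈ HH gen Rel ∧ (f n).2 ∈ HH gen Rel) ∧
    ∀ F ∈ HH gen Rel, ∀ G ∈ HH gen Rel, ∀ m, ∃ n, m ≤ n ∧ f n = (F, G) := by
  obtain ⟨g, hg⟩ := (HH_countable gen Rel).exists_eq_range ⟨_, gen_mem gen Rel 0⟩
  refine ⟨fun n => (g n.unpair.1, g n.unpair.2.unpair.1), fun n => ?_, ?_⟩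
  · constructor <;> rw [hg] <;> exact ⟨_, rfl⟩
  · intro F hF G hG m
    rw [hg] at hF hG
    obtain ⟨a, rfl⟩ := hF
    obtain ⟨b, rfl⟩ := hG
    refine ⟨Nat.pair a (Nat.pair b m), ?_, ?_⟩
    · exact (Nat.right_le_pair b m).trans (Nat.right_le_pair a _)
    · simp

end closure

end Pool.Agent.H45.BRT
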