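import Mathlib

/-!
# The finite combinatorics

A hierarchy of blocks of natural numbers, a graph on them without large cliques, and a notion of
large sets.
-/

set_option autoImplicit false

namespace Pool.Agent.H45.BRT

/-- The number of cells that can be avoided. -/
def rho (a : ℕ) : ℕ := (a + 1) ^ 2 + a

/-- The number of regions of a block which starts at `a`. -/
def gg (a : ℕ) : ℕ := 2 * (a ^ a * rho a) + 3 * 2 ^ (a ^ a) + 1

lemma gg_pos (a : ℕ) : 0 < gg a := by unfold gg; omega

/-- The end of the block of level `i` which starts at `a`. -/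
def e : ℕ → ℕ → ℕ
  | 0, a => a + 1
  | i + 1, a => (e i)^[gg a * gg a] a

/-- The start of the cell with index `s` in the block of level `i + 1` which starts at `a`. -/
def C (i a s : ℕ) : ℕ := (e i)^[s] a

lemma C_zero (i a : ℕ) : C i a 0 = a := rfl

lemma C_succ (i a s : ℕ) : C i a (s + 1) = e i (C i a s) := by
  unfold C; rw [Function.iterate_succ_apply']

lemma e_succ (i a : ℕ) : e (i + 1) a = C i a (gg a * gg a) := rfl

lemma e_gt (i : ℕ) : ∀ a, a < e i a := by
  induction i with
  | zero => intro a; simp [e]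
  | succ i ih =>
    intro a
    have h : ∀ s, a + s ≤ C i a s := by
      intro s
      induction s with
      | zero => simp [C_zero]
      | succ s ihs => rw [C_succ]; have := ih (C i a s); omega
    have h1 := h (gg a * gg a)
    have h2 : 0 < gg a * gg a := Nat.mul_pos (gg_pos a) (gg_pos a)
    rw [e_succ]; omega

lemma C_lt_succ (i a s : ℕ) : C i a s < C i a (s + 1) := by
  rw [C_succ]; exact e_gt i _

lemma C_strictMono (i a : ℕ) : StrictMono (C i a) := strictMono_nat_of_lt_succ (C_lt_succ i a)

lemma le_C (i a s : ℕ) : a + s ≤ C i a s := by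
  induction s with
  | zero => simp [C_zero]
  | succ s ih => have := C_lt_succ i a s; omega

/-- The graph. -/
def adj : ℕ → ℕ → ℕ → ℕ → Prop
  | 0, _, _, _ => False
  | i + 1, a, x, y =>
    (∃ s, s < gg a * gg a ∧ C i a s ≤ x ∧ y < C i a (s + 1) ∧ adj i (C i a s) x y) ∨
    (∃ p q v, p < q ∧ q < gg a ∧ v < gg a ∧
      C i a (p * gg a + q) ≤ x ∧ x < C i a (p * gg a + q + 1) ∧
      C i a (q * gg a + v) ≤ y ∧ y < C i a (q * gg a + v + 1))

/-- Index arithmetic of the cells. -/
lemma idx_lt {G p u : ℕ} (hp : p < G) (hu : u < G) : p * G + u < G * G := by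
  calc p * G + u < p * G + G := by omega
    _ = (p + 1) * G := by ring
    _ ≤ G * G := Nat.mul_le_mul_right _ hp

lemma idx_lt_idx {G p u q v : ℕ} (hu : u < G) (hpq : p < q) : p * G + u < q * G + v := by
  calc p * G + u < p * G + G := by omega
    _ = (p + 1) * G := by ring
    _ ≤ q * G := Nat.mul_le_mul_right _ hpq
    _ ≤ q * G + v := by omega

lemma idx_inj {G p u q v : ℕ} (hu : u < G) (hv : v < G) (h : p * G + u = q * G + v) :
    p = q ∧ u = v := by
  rcases lt_trichotomy p q with h1 | h1 | h1
  · have := idx_lt_idx (v := v) hu h1; omega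
  · subst h1; exact ⟨rfl, by omega⟩
  · have := idx_lt_idx (v := u) hv h1; omega

/-- Every point of a block is in exactly one cell. -/
lemma exists_cell {i a x n : ℕ} (h1 : a ≤ x) (h2 : x < C i a n) :
    ∃ s, s < n ∧ C i a s ≤ x ∧ x < C i a (s + 1) := by
  induction n with
  | zero => rw [C_zero] at h2; omega
  | succ n ih =>
    by_cases h : x < C i a n
    · obtain ⟨s, hs, h3⟩ := ih h
      exact ⟨s, by omega, h3⟩
    · exact ⟨n, by omega, by omega, h2⟩

lemma cell_unique {i a x s s' : ℕ} (h1 : C i a s ≤ x) (h2 : x < C i a (s + 1))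
    (h1' : C i a s' ≤ x) (h2' : x < C i a (s' + 1)) : s = s' := by
  have hm := C_strictMono i a
  rcases lt_trichotomy s s' with h | h | h
  · have := hm.monotone (show s + 1 ≤ s' from h); omega
  · exact h
  · have := hm.monotone (show s' + 1 ≤ s from h); omega

/-- A clique of the graph inside a block. -/
def IsClq (i a : ℕ) (Q : Finset ℕ) : Prop :=
  (∀ x ∈ Q, a ≤ x ∧ x < e i a) ∧ ∀ x ∈ Q, ∀ y ∈ Q, x < y → adj i a x y

/-- Cliques have at most `2 ^ i` elements. -/
theorem clique_card (i : ℕ) : ∀ (a : ℕ) (Q : Finset ℕ), IsClq i a Q → Q.card ≤ 2 ^ i := by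
  induction i with
  | zero =>
    intro a Q hQ
    have : Q ⊆ {a} := by
      intro x hx
      have := hQ.1 x hx
      simp only [e] at this
      rw [Finset.mem_singleton]; omega
    simpa using Finset.card_le_card this
  | succ i ih =>
    intro a Q hQ
    set G := gg a with hG
    -- the cell of a point
    have hcell : ∀ x ∈ Q, ∃ p u, p < G ∧ u < G ∧ C i a (p * G + u) ≤ x ∧
        x < C i a (p * G + u + 1) := by
      intro x hx
      obtain ⟨s, hs, h1, h2⟩ := exists_cell (i := i) (hQ.1 x hx).1 (hQ.1 x hx).2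
      refine ⟨s / G, s % G, ?_, Nat.mod_lt _ (gg_pos a), ?_, ?_⟩
      · exact Nat.div_lt_of_lt_mul hs
      · rw [Nat.div_add_mod' s G]; exact h1
      · rw [Nat.div_add_mod' s G]; exact h2
    choose! P U hP hU h1 h2 using hcell
    -- adjacency of points in different cells
    have hadj : ∀ x ∈ Q, ∀ y ∈ Q, x < y → (P x = P y ∧ U x = U y) ∨ (P x < P y ∧ U x = P y) := by
      intro x hx y hy hxy
      rcases hQ.2 x hx y hy hxy with ⟨s, hs, h3, h4, -⟩ | ⟨p, q, v, hpq, hq, hv, h3, h4, h5, h6⟩
      · left
        have e1 := cell_unique (h1 x hx) (h2 x hx) h3 (by omega)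
        have e2 := cell_unique (h1 y hy) (h2 y hy) (by omega) h4
        exact idx_inj (hU x hx) (hU y hy) (by omega)
      · right
        have e1 := cell_unique (h1 x hx) (h2 x hx) h3 h4
        have e2 := cell_unique (h1 y hy) (h2 y hy) h5 h6
        obtain ⟨e3, e4⟩ := idx_inj (hU x hx) hq e1
        obtain ⟨e5, e6⟩ := idx_inj (hU y hy) hv e2
        omega
    -- restriction to a cell
    have hres : ∀ s, s < G * G → ∀ Q' ⊆ Q, (∀ x ∈ Q', P x * G + U x = s) → Q'.card ≤ 2 ^ i := by
      intro s hs Q' hQ' hcs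
      apply ih (C i a s) Q'
      constructor
      · intro x hx
        rw [← C_succ, ← hcs x hx]
        exact ⟨h1 x (hQ' hx), h2 x (hQ' hx)⟩
      · intro x hx y hy hxy
        rcases hQ.2 x (hQ' hx) y (hQ' hy) hxy with ⟨s', hs', h3, h4, h5⟩ |
          ⟨p, q, v, hpq, hq, hv, h3, h4, h5, h6⟩
        · have e1 := cell_unique (h1 x (hQ' hx)) (h2 x (hQ' hx)) h3 (by omega)
          rw [hcs x hx] at e1
          rw [e1]; exact h5
        · exfalso
          have e1 := cell_unique (h1 x (hQ' hx)) (h2 x (hQ' hx)) h3 h4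
          have e2 := cell_unique (h1 y (hQ' hy)) (h2 y (hQ' hy)) h5 h6
          rw [hcs x hx] at e1
          rw [hcs y hy] at e2
          have := idx_lt_idx (G := gg a) (v := v) hq hpq
          omega
    rcases Q.eq_empty_or_nonempty with rfl | hne
    · simp
    -- the region of the last point
    set m := Q.max' hne with hm
    have hmQ : m ∈ Q := Q.max'_mem hne
    have hle : ∀ x ∈ Q, x ≤ m := fun x hx => Q.le_max' x hx
    set Q1 := Q.filter (fun x => P x = P m) with hQ1
    set Q2 := Q.filter (fun x => ¬ P x = P m) with hQ2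
    have hc1 : Q1.card ≤ 2 ^ i := by
      apply hres (P m * G + U m) (idx_lt (hP m hmQ) (hU m hmQ)) Q1 (Finset.filter_subset _ _)
      intro x hx
      rw [hQ1, Finset.mem_filter] at hx
      rcases (hle x hx.1).lt_or_eq with h | h
      · rcases hadj x hx.1 m hmQ h with h3 | h3
        · rw [h3.1, h3.2]
        · omega
      · rw [h]
    have hc2 : Q2.card ≤ 2 ^ i := by
      rcases Q2.eq_empty_or_nonempty with h0 | ⟨z, hz⟩
      · rw [h0]; simp
      have hz' := hz
      rw [hQ2, Finset.mem_filter] at hz'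
      have hmem : ∀ x ∈ Q2, x ∈ Q ∧ P x < P m ∧ U x = P m := by
        intro x hx
        rw [hQ2, Finset.mem_filter] at hx
        refine ⟨hx.1, ?_⟩
        rcases (hle x hx.1).lt_or_eq with h | h
        · rcases hadj x hx.1 m hmQ h with h3 | h3
          · exact absurd h3.1 hx.2
          · exact h3
        · rw [h] at hx; exact absurd rfl hx.2
      apply hres (P z * G + U z) (idx_lt (hP z hz'.1) (hU z hz'.1)) Q2 (Finset.filter_subset _ _)
      intro x hx
      obtain ⟨a1, a2, a3⟩ := hmem x hx
      obtain ⟨b1, b2, b3⟩ := hmem z hz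
      rcases lt_trichotomy x z with h | h | h
      · rcases hadj x a1 z b1 h with h3 | h3
        · rw [h3.1, h3.2]
        · omega
      · rw [h]
      · rcases hadj z b1 x a1 h with h3 | h3
        · rw [h3.1, h3.2]
        · omega
    have hsum : Q.card = Q1.card + Q2.card := by
      rw [hQ1, hQ2]; exact (Finset.card_filter_add_card_filter_not _).symm
    rw [hsum, pow_succ]; omega

end Pool.Agent.H45.BRT
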