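import Pool.Agent.H45.BRT.Rels

/-!
# The sequence of blocks
-/

set_option autoImplicit false

namespace Pool.Agent.H45.BRT

open Filter

/-- The generators. -/
def gen (n : ℕ) : Seq :=
  if n % 3 = 0 then fun _ _ => n / 3 else if n % 3 = 1 then fun i _ => i - n / 3
  else fun i _ => 2 ^ i + n / 3

/-- The internal functions. -/
def IH : Set Seq := HH gen Rel

/-- The ultrafilter. -/
noncomputable abbrev U : Ultrafilter ℕ := hyperfilter ℕ

lemma const_mem (n : ℕ) : (fun _ _ => n : Seq) ∈ IH := by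
  have h := gen_mem gen Rel (3 * n)
  have e : gen (3 * n) = fun _ _ => n := by
    unfold gen
    rw [if_pos (by omega)]
    funext i x; omega
  rwa [e] at h

lemma lev_mem (n : ℕ) : (fun i _ => i - n : Seq) ∈ IH := by
  have h := gen_mem gen Rel (3 * n + 1)
  have e : gen (3 * n + 1) = fun i _ => i - n := by
    unfold gen
    rw [if_neg (by omega), if_pos (by omega)]
    funext i x
    have : (3 * n + 1) / 3 = n := by omega
    rw [this]
  rwa [e] at h

lemma pow_mem (n : ℕ) : (fun i _ => 2 ^ i + n : Seq) ∈ IH := by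
  have h := gen_mem gen Rel (3 * n + 2)
  have e : gen (3 * n + 2) = fun i _ => 2 ^ i + n := by
    unfold gen
    rw [if_neg (by omega), if_neg (by omega)]
    funext i x
    have : (3 * n + 2) / 3 = n := by omega
    rw [this]
  rwa [e] at h

lemma selI (j : Ix) {L₁ L₂ : List Seq} (h₁ : ∀ G ∈ L₁, G ∈ IH) (h₂ : ∀ G ∈ L₂, G ∈ IH) :
    ∃ F ∈ IH, ∀ i, (∃ f, Rel j (L₁.map fun G => G i 0) (L₂.map fun G => G i) f) →
      Rel j (L₁.map fun G => G i 0) (L₂.map fun G => G i) (F i) := sel_mem gen Rel j h₁ h₂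

lemma ev_gt (n : ℕ) : ∀ᶠ i in (U : Filter ℕ), n < i := by
  have h : ∀ᶠ i in atTop, n < i := eventually_gt_atTop n
  exact Nat.hyperfilter_le_atTop h

lemma app_mem {F G : Seq} (hF : F ∈ IH) (hG : G ∈ IH) :
    ∃ K ∈ IH, ∀ i, K i 0 = F i (G i 0) := by
  obtain ⟨K, hK, h⟩ := selI .app (L₁ := [G]) (L₂ := [F]) (by simpa using hG) (by simpa using hF)
  exact ⟨K, hK, fun i => h i (Rel_app _ _)⟩

lemma adj_bounds {i a x y : ℕ} (h : adj i a x y) : a ≤ x ∧ y < e i a := by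
  cases i with
  | zero => exact h.elim
  | succ i =>
    have hm := (C_strictMono i a).monotone
    rcases h with ⟨s, hs, h1, h2, -⟩ | ⟨p, q, v, hpq, hq, hv, h1, -, -, h2⟩
    · have := le_C i a s
      have h3 := hm (show s + 1 ≤ gg a * gg a from hs)
      rw [e_succ]
      omega
    · have := le_C i a (p * gg a + q)
      have h3 := hm (show q * gg a + v + 1 ≤ gg a * gg a from idx_lt hq hv)
      rw [e_succ]
      omega

/-- The invariant of the construction. -/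
def Inv (n : ℕ) (A X : Seq) : Prop :=
  ∀ᶠ i in (U : Filter ℕ), 1 ≤ A i 0 ∧ Large (i - n) (i - n) (A i 0) (supp (X i)) ∧
    ∀ x y, adj (i - n) (A i 0) x y → adj i (2 ^ i + 2) x y

/-- One step. -/
def StepS (n : ℕ) (A X F c A' X' J : Seq) : Prop :=
  ∀ᶠ i in (U : Filter ℕ),
    StepP (i - (n + 1)) (i - (n + 1)) (A i 0) (c i 0) (X i) (F i) (A' i 0) (J i 0) ∧
    (∀ x, X' i x ≠ 0 ↔ (X i x ≠ 0 ∧ (c i 0 ≤ A i 0 → (∀ x, F i x < c i 0) → F i x = J i 0))) ∧
    i - n = i - (n + 1) + 1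

lemma exists_next (n : ℕ) {A X F c : Seq} (hA : A ∈ IH) (hX : X ∈ IH) (hF : F ∈ IH)
    (hc : c ∈ IH) (hI : Inv n A X) : ∃ A' ∈ IH, ∃ X' ∈ IH, ∃ J ∈ IH,
      Inv (n + 1) A' X' ∧ StepS n A X F c A' X' J := by
  obtain ⟨G, hG, h1⟩ := selI .st
    (L₁ := [fun i _ => i - (n + 1), fun i _ => i - (n + 1), A, c]) (L₂ := [X, F])
    (by simpa using ⟨lev_mem (n + 1), hA, hc⟩) (by simpa using ⟨hX, hF⟩)
  obtain ⟨J, hJ, h2⟩ := app_mem hG (const_mem 1)
  obtain ⟨X', hX', h3⟩ := selI .stX (L₁ := [A, c, J]) (L₂ := [X, F])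
    (by simpa using ⟨hA, hc, hJ⟩) (by simpa using ⟨hX, hF⟩)
  have hS : StepS n A X F c G X' J := by
    filter_upwards [hI, ev_gt n] with i hi hn
    have e1 : i - n = i - (n + 1) + 1 := by omega
    refine ⟨?_, ?_, e1⟩
    · have h4 := h1 i (Rel_st hi.1 (by
        have := hi.2.1
        rw [e1] at this
        exact this) _)
      rw [h2 i]
      exact h4
    · exact h3 i (Rel_stX _ _ _ _ _)
  refine ⟨G, hG, X', hX', J, hJ, ?_, hS⟩
  filter_upwards [hI, hS] with i hi hs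
  obtain ⟨⟨s1, s2, s3, s4, s5, s6, s7⟩, hx, e1⟩ := hs
  refine ⟨?_, ?_, ?_⟩
  · have : 1 ≤ (A i 0 + 1) ^ 2 := Nat.one_le_pow _ _ (by omega)
    omega
  · have : supp (X' i) = {x ∈ supp (X i) | c i 0 ≤ A i 0 → (∀ x, F i x < c i 0) →
        F i x = J i 0} := by
      ext x; exact hx x
    rw [this]; exact s1
  · intro x y hxy
    apply hi.2.2
    rw [e1]
    obtain ⟨b1, b2⟩ := adj_bounds hxy
    exact s7 x y b1 b2 hxy

/-- The data of the construction. -/
structure Data where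
  A : ℕ → Seq
  X : ℕ → Seq
  J : ℕ → Seq
  req : ℕ → Seq × Seq
  A_mem : ∀ n, A n ∈ IH
  X_mem : ∀ n, X n ∈ IH
  J_mem : ∀ n, J n ∈ IH
  req_spec : ∀ F ∈ IH, ∀ G ∈ IH, ∀ m, ∃ n, m ≤ n ∧ req n = (F, G)
  inv : ∀ n, Inv n (A n) (X n)
  step : ∀ n, StepS n (A n) (X n) (req n).1 (req n).2 (A (n + 1)) (X (n + 1)) (J n)
  A_zero : A 0 = fun i _ => 2 ^ i + 2

theorem exists_data : Nonempty Data := by
  obtain ⟨req, hreq, hreq'⟩ := exists_enum gen Rel
  have h0 : (fun i _ => 2 ^ i + 2 : Seq) ∈ IH ∧ (fun _ _ => 1 : Seq) ∈ IH ∧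
      Inv 0 (fun i _ => 2 ^ i + 2) (fun _ _ => 1) := by
    refine ⟨pow_mem 2, const_mem 1, Eventually.of_forall fun i => ⟨by simp, ?_, fun x y h => h⟩⟩
    have : supp ((fun _ _ => 1 : Seq) i) = Set.univ := by
      ext x; simp [supp]
    rw [this]
    refine large_univ (by simp) ?_
    show i - 0 ≤ 2 ^ i + 2
    have := Nat.lt_two_pow_self (n := i)
    omega
  let St : ℕ → Type := fun n => {p : Seq × Seq // p.1 ∈ IH ∧ p.2 ∈ IH ∧ Inv n p.1 p.2}
  have hnext : ∀ n (p : St n), ∃ q : St (n + 1), ∃ J ∈ IH,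
      StepS n p.1.1 p.1.2 (req n).1 (req n).2 q.1.1 q.1.2 J := by
    intro n p
    obtain ⟨A', hA', X', hX', J, hJ, h1, h2⟩ :=
      exists_next n p.2.1 p.2.2.1 (hreq n).1 (hreq n).2 p.2.2.2
    exact ⟨⟨(A', X'), hA', hX', h1⟩, J, hJ, h2⟩
  choose nxt J hJ hstep using hnext
  let seq : (n : ℕ) → St n := fun n => Nat.rec
    (⟨(fun i _ => 2 ^ i + 2, fun _ _ => 1), h0⟩ : St 0) (fun n p => nxt n p) n
  exact ⟨{
    A := fun n => (seq n).1.1
    X := fun n => (seq n).1.2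
    J := fun n => J n (seq n)
    req := req
    A_mem := fun n => (seq n).2.1
    X_mem := fun n => (seq n).2.2.1
    J_mem := fun n => hJ n _
    req_spec := hreq'
    inv := fun n => (seq n).2.2.2
    step := fun n => hstep n (seq n)
    A_zero := rfl }⟩

end Pool.Agent.H45.BRT
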