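import Mathlib

/-!
# Second-order arithmetic: structures, bounded formulas and the axiom systems
-/

set_option autoImplicit false

namespace Pool.Agent.H45.BRT

/-- Number terms; `var i` is the `i`-th entry of the list of the values of the number variables. -/
inductive Term
  | var (i : ℕ)
  | zero
  | one
  | add (s t : Term)
  | mul (s t : Term)

/-- Bounded (`Δ⁰₀`) formulas; `mem s k` is `s ∈ X_k`, and `ball t φ` is `∀ x < t, φ`, where in `φ`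
the variable `var 0` is `x` and `var (i + 1)` is the old `var i`. -/
inductive BForm
  | eq (s t : Term)
  | lt (s t : Term)
  | mem (s : Term) (k : ℕ)
  | neg (φ : BForm)
  | and (φ ψ : BForm)
  | ball (t : Term) (φ : BForm)

/-- A structure for the language of second-order arithmetic: a first-order part `M` and a family
`S` of subsets of `M`. -/
structure Model where
  M : Type
  zero : M
  one : M
  add : M → M → M
  mul : M → M → M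
  lt : M → M → Prop
  S : Set (Set M)

namespace Model

variable (𝔐 : Model)

/-- The value of a term. -/
def eval (v : List 𝔐.M) : Term → 𝔐.M
  | .var i => v.getD i 𝔐.zero
  | .zero => 𝔐.zero
  | .one => 𝔐.one
  | .add s t => 𝔐.add (eval v s) (eval v t)
  | .mul s t => 𝔐.mul (eval v s) (eval v t)

/-- Satisfaction of bounded formulas; `v` and `V` are the values of the number and set variables. -/
def Sat (V : List (Set 𝔐.M)) : BForm → List 𝔐.M → Prop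
  | .eq s t, v => 𝔐.eval v s = 𝔐.eval v t
  | .lt s t, v => 𝔐.lt (𝔐.eval v s) (𝔐.eval v t)
  | .mem s k, v => 𝔐.eval v s ∈ V.getD k ∅
  | .neg φ, v => ¬ Sat V φ v
  | .and φ ψ, v => Sat V φ v ∧ Sat V ψ v
  | .ball t φ, v => ∀ x, 𝔐.lt x (𝔐.eval v t) → Sat V φ (x :: v)

/-- The axioms of discretely ordered semirings (`PA⁻`). -/
structure PAMinus : Prop where
  add_assoc : ∀ x y z, 𝔐.add (𝔐.add x y) z = 𝔐.add x (𝔐.add y z)
  add_comm : ∀ x y, 𝔐.add x y = 𝔐.add y x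
  mul_assoc : ∀ x y z, 𝔐.mul (𝔐.mul x y) z = 𝔐.mul x (𝔐.mul y z)
  mul_comm : ∀ x y, 𝔐.mul x y = 𝔐.mul y x
  mul_add : ∀ x y z, 𝔐.mul x (𝔐.add y z) = 𝔐.add (𝔐.mul x y) (𝔐.mul x z)
  add_zero : ∀ x, 𝔐.add x 𝔐.zero = x
  mul_zero : ∀ x, 𝔐.mul x 𝔐.zero = 𝔐.zero
  mul_one : ∀ x, 𝔐.mul x 𝔐.one = x
  lt_trans : ∀ x y z, 𝔐.lt x y → 𝔐.lt y z → 𝔐.lt x z
  lt_irrefl : ∀ x, ¬ 𝔐.lt x x
  lt_total : ∀ x y, 𝔐.lt x y ∨ x = y ∨ 𝔐.lt y x
  add_lt_add : ∀ x y z, 𝔐.lt x y → 𝔐.lt (𝔐.add x z) (𝔐.add y z)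
  mul_lt_mul : ∀ x y z, 𝔐.lt 𝔐.zero z → 𝔐.lt x y → 𝔐.lt (𝔐.mul x z) (𝔐.mul y z)
  exists_add : ∀ x y, 𝔐.lt x y → ∃ z, 𝔐.add x z = y
  zero_lt_one : 𝔐.lt 𝔐.zero 𝔐.one
  discrete : ∀ x, 𝔐.lt 𝔐.zero x → x = 𝔐.one ∨ 𝔐.lt 𝔐.one x
  zero_le : ∀ x, x = 𝔐.zero ∨ 𝔐.lt 𝔐.zero x

/-- `Σ⁰₁`-induction for the formulas `∃ y φ(y, x, …)`, `φ` bounded, with parameters. -/
def ISigma1 : Prop :=
  ∀ (φ : BForm) (v : List 𝔐.M) (V : List (Set 𝔐.M)), (∀ X ∈ V, X ∈ 𝔐.S) →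
    (∃ y, 𝔐.Sat V φ (y :: 𝔐.zero :: v)) →
    (∀ x, (∃ y, 𝔐.Sat V φ (y :: x :: v)) → ∃ y, 𝔐.Sat V φ (y :: 𝔐.add x 𝔐.one :: v)) →
    ∀ x, ∃ y, 𝔐.Sat V φ (y :: x :: v)

/-- `Δ⁰₁`-comprehension with parameters. -/
def Delta1CA : Prop :=
  ∀ (φ ψ : BForm) (v : List 𝔐.M) (V : List (Set 𝔐.M)), (∀ X ∈ V, X ∈ 𝔐.S) →
    (∀ x, (∃ y, 𝔐.Sat V φ (y :: x :: v)) ↔ ∀ y, 𝔐.Sat V ψ (y :: x :: v)) →
    {x | ∃ y, 𝔐.Sat V φ (y :: x :: v)} ∈ 𝔐.S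

/-- The theory `RCA₀`. -/
def RCA0 : Prop := 𝔐.PAMinus ∧ 𝔐.ISigma1 ∧ 𝔐.Delta1CA

/-- `Σ⁰₂`-collection for the formulas `∃ u ∀ w θ(w, u, y, x, …)`, `θ` bounded, with parameters. -/
def BSigma2 : Prop :=
  ∀ (θ : BForm) (v : List 𝔐.M) (V : List (Set 𝔐.M)), (∀ X ∈ V, X ∈ 𝔐.S) → ∀ a,
    (∀ x, 𝔐.lt x a → ∃ y, ∃ u, ∀ w, 𝔐.Sat V θ (w :: u :: y :: x :: v)) →
    ∃ b, ∀ x, 𝔐.lt x a → ∃ y, 𝔐.lt y b ∧ ∃ u, ∀ w, 𝔐.Sat V θ (w :: u :: y :: x :: v)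

/-- `X` is infinite, that is, unbounded. -/
def Infinite (X : Set 𝔐.M) : Prop := ∀ b, ∃ x ∈ X, 𝔐.lt b x

/-- The finite binary strings are coded by the positive numbers: `1` is the empty string, and if
`x` is (the code of) `σ` then `2 x` is `σ0` and `2 x + 1` is `σ1`. -/
def left (x : 𝔐.M) : 𝔐.M := 𝔐.add x x

/-- The string `σ1`, see `left`. -/
def right (x : 𝔐.M) : 𝔐.M := 𝔐.add (𝔐.add x x) 𝔐.one

/-- `T` is a set of finite binary strings which is closed under initial segments. -/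
def IsTree (T : Set 𝔐.M) : Prop :=
  (∀ x ∈ T, 𝔐.lt 𝔐.zero x) ∧
    ∀ x, 𝔐.lt 𝔐.zero x → (𝔐.left x ∈ T ∨ 𝔐.right x ∈ T) → x ∈ T

/-- `P` is the set of the initial segments of an infinite binary sequence: a tree which contains
the empty string and, with every string, exactly one of its two immediate extensions. -/
def IsBranch (P : Set 𝔐.M) : Prop :=
  𝔐.IsTree P ∧ 𝔐.one ∈ P ∧
    ∀ x ∈ P, (𝔐.left x ∈ P ∧ 𝔐.right x ∉ P) ∨ (𝔐.left x ∉ P ∧ 𝔐.right x ∈ P)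

/-- Weak König's lemma: every infinite tree of binary strings has an infinite path. -/
def WKL : Prop :=
  ∀ T ∈ 𝔐.S, 𝔐.IsTree T → 𝔐.Infinite T → ∃ P ∈ 𝔐.S, 𝔐.IsBranch P ∧ P ⊆ T

/-- The pairing function `(x + y)² + x`. -/
def pair (x y : 𝔐.M) : 𝔐.M := 𝔐.add (𝔐.mul (𝔐.add x y) (𝔐.add x y)) x

/-- The set `G` codes an increasing enumeration of `H` of length `l`; so `H` has `l` elements. -/
def Enumerates (G H : Set 𝔐.M) (l : 𝔐.M) : Prop :=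
  (∀ i, 𝔐.lt i l → ∃ x ∈ H, 𝔐.pair i x ∈ G) ∧
  (∀ i, 𝔐.lt i l → ∀ x y, 𝔐.pair i x ∈ G → 𝔐.pair i y ∈ G → x = y) ∧
  (∀ i j, 𝔐.lt i j → 𝔐.lt j l → ∀ x y, 𝔐.pair i x ∈ G → 𝔐.pair j y ∈ G → 𝔐.lt x y) ∧
  ∀ x ∈ H, ∃ i, 𝔐.lt i l ∧ 𝔐.pair i x ∈ G

/-- `H` is homogeneous for the colour `1` for the colouring of the pairs `x < y` in which the
pairs with code in `F` have the colour `1` and the other ones the colour `0`. -/
def Homog1 (F H : Set 𝔐.M) : Prop := ∀ x ∈ H, ∀ y ∈ H, 𝔐.lt x y → 𝔐.pair x y ∈ F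

/-- `H` is homogeneous for the colour `0`. -/
def Homog0 (F H : Set 𝔐.M) : Prop := ∀ x ∈ H, ∀ y ∈ H, 𝔐.lt x y → 𝔐.pair x y ∉ F

/-- Bounded Ramsey's theorem for pairs and two colours: for every colouring `F` of the pairs and
every number `l` such that no set which is homogeneous for the colour `1` has `l` elements, there
is an infinite set which is homogeneous for the colour `0`. -/
def BRT22 : Prop :=
  ∀ F ∈ 𝔐.S, ∀ l, (¬ ∃ H ∈ 𝔐.S, 𝔐.Homog1 F H ∧ ∃ G ∈ 𝔐.S, 𝔐.Enumerates G H l) →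
    ∃ H ∈ 𝔐.S, 𝔐.Infinite H ∧ 𝔐.Homog0 F H

end Model

end Pool.Agent.H45.BRT
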