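import Pool.Agent.H45.BRT.Cut

/-!
# The model and the theorem of Los for bounded formulas
-/

set_option autoImplicit false

namespace Pool.Agent.H45.BRT

open Filter

variable (D : Data)

/-- The numbers below the cut. -/
def InCut (g : ℕ → ℕ) : Prop := ∃ n, ∀ᶠ i in (U : Filter ℕ), g i < D.A n i 0

/-- The ends of the blocks. -/
def Data.B (n i : ℕ) : ℕ := e (i - n) (D.A n i 0)

lemma A_sq (n : ℕ) : ∀ᶠ i in (U : Filter ℕ), (D.A n i 0 + 1) ^ 2 ≤ D.A (n + 1) i 0 := by
  filter_upwards [D.step n] with i hi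
  exact hi.1.2.1

lemma A_lt (n : ℕ) : ∀ᶠ i in (U : Filter ℕ), D.A n i 0 < D.A (n + 1) i 0 := by
  filter_upwards [A_sq D n] with i hi
  nlinarith

lemma A_mono {m n : ℕ} (h : m ≤ n) : ∀ᶠ i in (U : Filter ℕ), D.A m i 0 ≤ D.A n i 0 := by
  induction h with
  | refl => exact Eventually.of_forall fun _ => le_rfl
  | @step k _ ih =>
    filter_upwards [ih, A_lt D k] with i h1 h2
    show D.A m i 0 ≤ D.A (k + 1) i 0
    omega

lemma B_anti {m n : ℕ} (h : m ≤ n) : ∀ᶠ i in (U : Filter ℕ), D.B n i ≤ D.B m i := by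
  induction h with
  | refl => exact Eventually.of_forall fun _ => le_rfl
  | @step k _ ih =>
    filter_upwards [ih, D.step k] with i h1 h2
    refine le_trans ?_ h1
    have h3 := h2.1.2.2.1
    unfold Data.B
    rw [h2.2.2]
    exact h3

lemma A_lt_B (m n : ℕ) : ∀ᶠ i in (U : Filter ℕ), D.A m i 0 < D.B n i := by
  filter_upwards [A_mono D (le_max_left m n), B_anti D (le_max_right m n)] with i h1 h2
  have := e_gt (i - max m n) (D.A (max m n) i 0)
  unfold Data.B at h2 ⊢
  omega

lemma X_anti {m n : ℕ} (h : m ≤ n) :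
    ∀ᶠ i in (U : Filter ℕ), ∀ x, D.X n i x ≠ 0 → D.X m i x ≠ 0 := by
  induction h with
  | refl => exact Eventually.of_forall fun _ _ h => h
  | @step k _ ih =>
    filter_upwards [ih, D.step k] with i h1 h2 x hx
    exact h1 x ((h2.2.1 x).1 hx).1

variable {D}

lemma InCut.mono {g g' : ℕ → ℕ} (h : InCut D g') (hg : ∀ᶠ i in (U : Filter ℕ), g i ≤ g' i) :
    InCut D g := by
  obtain ⟨n, hn⟩ := h
  exact ⟨n, by filter_upwards [hn, hg] with i h1 h2; omega⟩

lemma inCut_A (n : ℕ) : InCut D (fun i => D.A n i 0) := ⟨n + 1, A_lt D n⟩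

lemma not_inCut {g : ℕ → ℕ} (h : ¬ InCut D g) (n : ℕ) :
    ∀ᶠ i in (U : Filter ℕ), D.A n i 0 ≤ g i := by
  have h1 : ¬ ∀ᶠ i in (U : Filter ℕ), g i < D.A n i 0 := fun h2 => h ⟨n, h2⟩
  rw [← Ultrafilter.eventually_not] at h1
  filter_upwards [h1] with i hi
  omega

lemma InCut.bound {g g' : ℕ → ℕ} (h : InCut D g) (h' : InCut D g') :
    ∃ n, (∀ᶠ i in (U : Filter ℕ), g i < D.A n i 0) ∧ ∀ᶠ i in (U : Filter ℕ), g' i < D.A n i 0 := by
  obtain ⟨n, hn⟩ := h
  obtain ⟨m, hm⟩ := h'
  refine ⟨max n m, ?_, ?_⟩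
  · filter_upwards [hn, A_mono D (le_max_left n m)] with i h1 h2; omega
  · filter_upwards [hm, A_mono D (le_max_right n m)] with i h1 h2; omega

lemma InCut.sq {g g' : ℕ → ℕ} (h : InCut D g) (h' : InCut D g') :
    InCut D (fun i => (g i + 1) * (g' i + 1)) := by
  obtain ⟨n, h1, h2⟩ := h.bound h'
  refine ⟨n + 1, ?_⟩
  filter_upwards [h1, h2, A_sq D n] with i h3 h4 h5
  nlinarith

lemma InCut.add {g g' : ℕ → ℕ} (h : InCut D g) (h' : InCut D g') :
    InCut D (fun i => g i + g' i) :=
  (h.sq h').mono (Eventually.of_forall fun i => by nlinarith [Nat.zero_le (g i * g' i)])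

lemma InCut.mul {g g' : ℕ → ℕ} (h : InCut D g) (h' : InCut D g') :
    InCut D (fun i => g i * g' i) :=
  (h.sq h').mono (Eventually.of_forall fun i => by nlinarith)

lemma inCut_const (n : ℕ) : InCut D (fun _ => n) := by
  refine ⟨0, ?_⟩
  filter_upwards [ev_gt n] with i hi
  rw [D.A_zero]
  show n < 2 ^ i + 2
  have := Nat.lt_two_pow_self (n := i)
  omega

variable (D)

/-- The first-order part. -/
def Car : Type :=
  {x : Germ (U : Filter ℕ) ℕ // ∃ F ∈ IH, x = ((fun i => F i 0 : ℕ → ℕ) : Germ (U : Filter ℕ) ℕ) ∧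
    InCut D (fun i => F i 0)}

variable {D}

/-- The number given by an internal function. -/
noncomputable def mk (F : Seq) (hF : F ∈ IH) (hc : InCut D (fun i => F i 0)) : Car D :=
  ⟨((fun i => F i 0 : ℕ → ℕ) : Germ (U : Filter ℕ) ℕ), F, hF, rfl, hc⟩

/-- A representative. -/
noncomputable def rep (x : Car D) : Seq := x.2.choose

lemma rep_mem (x : Car D) : rep x ∈ IH := x.2.choose_spec.1

lemma rep_eq (x : Car D) : x.1 = ((fun i => rep x i 0 : ℕ → ℕ) : Germ (U : Filter ℕ) ℕ) :=
  x.2.choose_spec.2.1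

lemma rep_cut (x : Car D) : InCut D (fun i => rep x i 0) := x.2.choose_spec.2.2

lemma rep_mk (F : Seq) (hF : F ∈ IH) (hc : InCut D (fun i => F i 0)) :
    ∀ᶠ i in (U : Filter ℕ), rep (mk F hF hc) i 0 = F i 0 := by
  have h := rep_eq (mk F hF hc)
  have h2 : ((fun i => F i 0 : ℕ → ℕ) : Germ (U : Filter ℕ) ℕ) =
    ((fun i => rep (mk F hF hc) i 0 : ℕ → ℕ) : Germ (U : Filter ℕ) ℕ) := h
  rw [Germ.coe_eq] at h2
  filter_upwards [h2] with i hi using hi.symm

lemma car_eq_iff (x y : Car D) : x = y ↔ ∀ᶠ i in (U : Filter ℕ), rep x i 0 = rep y i 0 := by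
  constructor
  · rintro rfl; exact Eventually.of_forall fun _ => rfl
  · intro h
    apply Subtype.ext
    rw [rep_eq x, rep_eq y, Germ.coe_eq]
    exact h

lemma car_lt_iff (x y : Car D) : x.1 < y.1 ↔ ∀ᶠ i in (U : Filter ℕ), rep x i 0 < rep y i 0 := by
  rw [rep_eq x, rep_eq y, Germ.coe_lt]

variable (D)

/-- The set given by an internal function. -/
def setOf (F : Seq) : Set (Car D) := {x | ∀ᶠ i in (U : Filter ℕ), F i (rep x i 0) ≠ 0}

variable {D}

lemma exists_add (x y : Car D) : ∃ F ∈ IH, (x.1 + y.1) =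
    ((fun i => F i 0 : ℕ → ℕ) : Germ (U : Filter ℕ) ℕ) ∧ InCut D (fun i => F i 0) := by
  obtain ⟨F, hF, h⟩ := selI .add (L₁ := [rep x, rep y]) (L₂ := [])
    (by simpa using ⟨rep_mem x, rep_mem y⟩) (by simp)
  have h' : ∀ i, F i 0 = rep x i 0 + rep y i 0 := fun i => h i (Rel_add _ _ _)
  refine ⟨F, hF, ?_, ?_⟩
  · simp only [h']
    rw [rep_eq x, rep_eq y, ← Germ.coe_add]; rfl
  · simp only [h']; exact (rep_cut x).add (rep_cut y)

lemma exists_mul (x y : Car D) : ∃ F ∈ IH, (x.1 * y.1) =
    ((fun i => F i 0 : ℕ → ℕ) : Germ (U : Filter ℕ) ℕ) ∧ InCut D (fun i => F i 0) := by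
  obtain ⟨F, hF, h⟩ := selI .mul (L₁ := [rep x, rep y]) (L₂ := [])
    (by simpa using ⟨rep_mem x, rep_mem y⟩) (by simp)
  have h' : ∀ i, F i 0 = rep x i 0 * rep y i 0 := fun i => h i (Rel_mul _ _ _)
  refine ⟨F, hF, ?_, ?_⟩
  · simp only [h']
    rw [rep_eq x, rep_eq y, ← Germ.coe_mul]; rfl
  · simp only [h']; exact (rep_cut x).mul (rep_cut y)

variable (D)

/-- The model. -/
noncomputable abbrev model : Model where
  M := Car D
  zero := mk (fun _ _ => 0) (const_mem 0) (inCut_const 0)
  one := mk (fun _ _ => 1) (const_mem 1) (inCut_const 1)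
  add := fun x y => ⟨x.1 + y.1, exists_add x y⟩
  mul := fun x y => ⟨x.1 * y.1, exists_mul x y⟩
  lt := fun x y => x.1 < y.1
  S := {B | ∃ F ∈ IH, B = setOf D F}

variable {D}

lemma rep_zero : ∀ᶠ i in (U : Filter ℕ), rep ((model D).zero : Car D) i 0 = 0 :=
  rep_mk _ _ _

lemma rep_one : ∀ᶠ i in (U : Filter ℕ), rep ((model D).one : Car D) i 0 = 1 :=
  rep_mk _ _ _

lemma rep_add (x y : Car D) : ∀ᶠ i in (U : Filter ℕ),
    rep ((model D).add x y : Car D) i 0 = rep x i 0 + rep y i 0 := by
  have h : ((model D).add x y : Car D).1 = x.1 + y.1 := rfl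
  rw [rep_eq, rep_eq x, rep_eq y, ← Germ.coe_add, Germ.coe_eq] at h
  exact h

lemma rep_mul (x y : Car D) : ∀ᶠ i in (U : Filter ℕ),
    rep ((model D).mul x y : Car D) i 0 = rep x i 0 * rep y i 0 := by
  have h : ((model D).mul x y : Car D).1 = x.1 * y.1 := rfl
  rw [rep_eq, rep_eq x, rep_eq y, ← Germ.coe_mul, Germ.coe_eq] at h
  exact h

/-- The values of the representatives. -/
noncomputable def vals (v : List (Car D)) (i : ℕ) : List ℕ := v.map fun x => rep x i 0

lemma rep_eval (v : List (Car D)) (t : Term) : ∀ᶠ i in (U : Filter ℕ),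
    rep ((model D).eval v t : Car D) i 0 = Nm.eval (vals v i) t := by
  induction t with
  | var k =>
    show ∀ᶠ i in (U : Filter ℕ), rep (v.getD k (model D).zero) i 0 = (vals v i).getD k 0
    by_cases hk : k < v.length
    · refine Eventually.of_forall fun i => ?_
      have hk' : k < (vals v i).length := by simpa [vals] using hk
      rw [List.getD_eq_getElem _ _ hk, List.getD_eq_getElem _ _ hk']
      simp [vals]
    · filter_upwards [rep_zero (D := D)] with i hi
      have hk' : (vals v i).length ≤ k := by simpa [vals] using hk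
      rw [List.getD_eq_default _ _ (by omega), List.getD_eq_default _ _ hk']
      exact hi
  | zero => exact rep_zero
  | one => exact rep_one
  | add s t hs ht =>
    filter_upwards [hs, ht, rep_add ((model D).eval v s) ((model D).eval v t)] with i h1 h2 h3
    show rep ((model D).add ((model D).eval v s) ((model D).eval v t)) i 0 =
      Nm.eval (vals v i) s + Nm.eval (vals v i) t
    rw [h3, h1, h2]
  | mul s t hs ht =>
    filter_upwards [hs, ht, rep_mul ((model D).eval v s) ((model D).eval v t)] with i h1 h2 h3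
    show rep ((model D).mul ((model D).eval v s) ((model D).eval v t)) i 0 =
      Nm.eval (vals v i) s * Nm.eval (vals v i) t
    rw [h3, h1, h2]

/-- Every list of sets of the model is given by internal functions. -/
lemma exists_sets (V : List (Set (Car D))) (hV : ∀ X ∈ V, X ∈ (model D).S) :
    ∃ L : List Seq, (∀ F ∈ L, F ∈ IH) ∧ V = L.map (setOf D) := by
  induction V with
  | nil => exact ⟨[], by simp, rfl⟩
  | cons X V ih =>
    obtain ⟨F, hF, rfl⟩ := hV X List.mem_cons_self
    obtain ⟨L, hL, rfl⟩ := ih fun Y hY => hV Y (List.mem_cons_of_mem _ hY)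
    refine ⟨F :: L, ?_, rfl⟩
    intro G hG
    rcases List.mem_cons.1 hG with rfl | hG
    · exact hF
    · exact hL G hG

/-- Satisfaction at the index `i`. -/
def SI (L : List Seq) (φ : BForm) (v : List ℕ) (i : ℕ) : Prop := SN (L.map fun F => F i) φ v

lemma mem_setOf_iff (F : Seq) (x : Car D) :
    x ∈ setOf D F ↔ ∀ᶠ i in (U : Filter ℕ), F i (rep x i 0) ≠ 0 := Iff.rfl

/-- The sets of the model are determined by the values on any representative. -/
lemma mk_mem_iff (F G : Seq) (hG : G ∈ IH) (hc : InCut D (fun i => G i 0)) :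
    mk G hG hc ∈ setOf D F ↔ ∀ᶠ i in (U : Filter ℕ), F i (G i 0) ≠ 0 := by
  rw [mem_setOf_iff]
  constructor
  · intro h; filter_upwards [h, rep_mk G hG hc] with i h1 h2; rwa [h2] at h1
  · intro h; filter_upwards [h, rep_mk G hG hc] with i h1 h2; rwa [h2]

/-- **The theorem of Los for bounded formulas.** -/
theorem los (L : List Seq) (hL : ∀ F ∈ L, F ∈ IH) (φ : BForm) : ∀ v : List (Car D),
    (model D).Sat (L.map (setOf D)) φ v ↔ ∀ᶠ i in (U : Filter ℕ), SI L φ (vals v i) i := by
  induction φ with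
  | eq s t =>
    intro v
    show (model D).eval v s = (model D).eval v t ↔ _
    rw [car_eq_iff]
    refine eventually_congr ?_
    filter_upwards [rep_eval v s, rep_eval v t] with i h1 h2
    rw [h1, h2]; rfl
  | lt s t =>
    intro v
    show ((model D).eval v s : Car D).1 < ((model D).eval v t : Car D).1 ↔ _
    rw [car_lt_iff]
    refine eventually_congr ?_
    filter_upwards [rep_eval v s, rep_eval v t] with i h1 h2
    rw [h1, h2]; rfl
  | mem s k =>
    intro v
    show ((model D).eval v s : Car D) ∈ (L.map (setOf D)).getD k ∅ ↔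
      ∀ᶠ i in (U : Filter ℕ), Nm.eval (vals v i) s ∈ ((L.map fun F => F i).map supp).getD k ∅
    by_cases hk : k < L.length
    · have hk1 : k < (L.map (setOf D)).length := by simpa using hk
      rw [List.getD_eq_getElem _ _ hk1, List.getElem_map, mem_setOf_iff]
      refine eventually_congr ?_
      filter_upwards [rep_eval v s] with i h1
      have hk2 : k < ((L.map fun F => F i).map supp).length := by simpa using hk
      rw [List.getD_eq_getElem _ _ hk2, List.getElem_map, List.getElem_map, h1]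
      rfl
    · have hk1 : (L.map (setOf D)).length ≤ k := by simpa using hk
      rw [List.getD_eq_default _ _ hk1]
      constructor
      · intro h; exact h.elim
      · intro h
        obtain ⟨i, hi⟩ := h.exists
        have hk2 : ((L.map fun F => F i).map supp).length ≤ k := by simpa using hk
        rw [List.getD_eq_default _ _ hk2] at hi
        exact hi.elim
  | neg φ ih =>
    intro v
    show ¬ (model D).Sat _ φ v ↔ ∀ᶠ i in (U : Filter ℕ), ¬ SI L φ (vals v i) i
    rw [ih, Ultrafilter.eventually_not]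
  | and φ ψ ih1 ih2 =>
    intro v
    show (model D).Sat _ φ v ∧ (model D).Sat _ ψ v ↔
      ∀ᶠ i in (U : Filter ℕ), SI L φ (vals v i) i ∧ SI L ψ (vals v i) i
    rw [ih1, ih2, eventually_and]
  | ball t φ ih =>
    intro v
    show (∀ x : Car D, x.1 < ((model D).eval v t : Car D).1 → (model D).Sat _ φ (x :: v)) ↔
      ∀ᶠ i in (U : Filter ℕ), ∀ x, x < Nm.eval (vals v i) t → SI L φ (x :: vals v i) i
    constructor
    · intro h
      by_contra hcon
      rw [← Ultrafilter.eventually_not] at hcon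
      set T := rep ((model D).eval v t : Car D) with hT
      obtain ⟨G, hG, h1⟩ := selI (.least (.neg φ)) (L₁ := T :: v.map rep) (L₂ := L)
        (by
          intro G hG
          rcases List.mem_cons.1 hG with rfl | hG
          · exact rep_mem _
          · obtain ⟨x, -, rfl⟩ := List.mem_map.1 hG
            exact rep_mem x) hL
      have h2 : ∀ i, Rel (.least (.neg φ)) (T i 0 :: vals v i) (L.map fun F => F i) (G i) := by
        intro i
        have := h1 i (by
          simp only [List.map_cons]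
          exact Rel_least _ _ _ _)
        simpa [vals, Function.comp_def] using this
      have hGT : ∀ᶠ i in (U : Filter ℕ), G i 0 < T i 0 ∧ ¬ SI L φ (G i 0 :: vals v i) i := by
        filter_upwards [hcon, rep_eval v t] with i h3 h4
        push Not at h3
        obtain ⟨x, hx, hx'⟩ := h3
        obtain ⟨g1, g2, g3⟩ := h2 i
        have hle : G i 0 ≤ x := by
          by_contra hlt
          exact g2 x (not_le.1 hlt) hx'
        have hx2 : x < T i 0 := by rw [hT, h4]; exact hx
        refine ⟨by omega, ?_⟩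
        rcases g3 with g3 | g3
        · omega
        · exact g3
      have hcut : InCut D (fun i => G i 0) :=
        (rep_cut ((model D).eval v t : Car D)).mono (by
          filter_upwards [hGT] with i hi using hi.1.le)
      have h5 := h (mk G hG hcut) (by
        rw [car_lt_iff]
        filter_upwards [rep_mk G hG hcut, hGT] with i h6 h7
        rw [h6]; exact h7.1)
      rw [ih] at h5
      obtain ⟨i, hi1, hi2, hi3⟩ := (h5.and (hGT.and (rep_mk G hG hcut))).exists
      apply hi2.2
      have : vals (mk G hG hcut :: v) i = G i 0 :: vals v i := by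
        simp [vals, hi3]
      rwa [this] at hi1
    · intro h x hx
      rw [ih]
      rw [car_lt_iff] at hx
      filter_upwards [h, hx, rep_eval v t] with i h1 h2 h3
      exact h1 _ (by rw [← h3]; exact h2)

end Pool.Agent.H45.BRT
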