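import Pool.Agent.H45.BRT.Closure

/-!
# The selection relations
-/

set_option autoImplicit false

namespace Pool.Agent.H45.BRT

/-- The standard model. -/
abbrev Nm : Model where
  M := ℕ
  zero := 0
  one := 1
  add := (· + ·)
  mul := (· * ·)
  lt := (· < ·)
  S := Set.univ

/-- The support of a function. -/
def supp (A : ℕ → ℕ) : Set ℕ := {x | A x ≠ 0}

/-- Satisfaction in the standard model. -/
def SN (V : List (ℕ → ℕ)) (φ : BForm) (v : List ℕ) : Prop := Nm.Sat (V.map supp) φ v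

/-- Ancestors in the binary tree. -/
def Anc (y x : ℕ) : Prop := ∃ k, y = x / 2 ^ k ∧ 0 < y

/-- All ancestors are in `A`. -/
def Good (A : ℕ → ℕ) (x : ℕ) : Prop := ∀ y, Anc y x → A y ≠ 0

/-- `∃ y, u ≤ z, ∀ w' < w, θ`. -/
def TT (V : List (ℕ → ℕ)) (θ : BForm) (v : List ℕ) (x z w : ℕ) : Prop :=
  ∃ y, y ≤ z ∧ ∃ u, u ≤ z ∧ ∀ w' < w, SN V θ (w' :: u :: y :: x :: v)

/-- The least `z` with `TT`. -/
noncomputable def ZZ (V : List (ℕ → ℕ)) (θ : BForm) (v : List ℕ) (N x w : ℕ) : ℕ :=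
  sInf {z | z = N ∨ TT V θ v x z w}

/-- The code of a pair. -/
def pr (x y : ℕ) : ℕ := (x + y) * (x + y) + x

/-- The conclusion of the theorem `step`. -/
def StepP (i t a c : ℕ) (X F : ℕ → ℕ) (a' j : ℕ) : Prop :=
  Large i t a' {x ∈ supp X | c ≤ a → (∀ x, F x < c) → F x = j} ∧
      (a + 1) ^ 2 ≤ a' ∧ e i a' ≤ e (i + 1) a ∧
      (∃ x ∈ supp X, (c ≤ a → (∀ x, F x < c) → F x = j) ∧ a ≤ x ∧ x < a') ∧
      (c ≤ a → ∀ x < c, ¬ (a' ≤ F x ∧ F x < e i a')) ∧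
      ((∀ x, a' ≤ x → x < e i a' → F x = 0) ∨
        ∃ x y, x < y ∧ y < a' ∧ F x ≠ 0 ∧ F y ≠ 0 ∧ adj (i + 1) a x y) ∧
      ∀ x y, a' ≤ x → y < e i a' → adj i a' x y → adj (i + 1) a x y

/-- Names of the selection relations. -/
inductive Ix
  | app | add | mul | sub | top | leastGE | anc | ancset | wklpt | st | stX | edge | viol | pick
  | least (φ : BForm)
  | leastF (φ : BForm)
  | ca (φ ψ : BForm)
  | argmax (θ : BForm)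
  | wstar (θ : BForm)
  | yu (θ : BForm)

/-- The selection relations. -/
def Rel : Ix → List ℕ → List (ℕ → ℕ) → (ℕ → ℕ) → Prop
  | .app, [x], [F], f => f 0 = F x
  | .add, [x, y], _, f => f 0 = x + y
  | .mul, [x, y], _, f => f 0 = x * y
  | .sub, [x, y], _, f => f 0 = x - y
  | .top, [i, a], _, f => f 0 = e i a
  | .leastGE, [c, d], [F], f => f 0 ≤ c ∧ (∀ x < f 0, F x < d) ∧ (f 0 = c ∨ d ≤ F (f 0))
  | .anc, [x], [A], f => Anc (f 0) x ∧ A (f 0) = 0 ∧ ∀ y, Anc y x → A y = 0 → y ≤ f 0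
  | .ancset, [x], _, f => ∀ y, f y ≠ 0 ↔ Anc y x
  | .wklpt, [N], [A], f => f 0 < N ∧ Good A (f 0) ∧ ∀ x < N, Good A x → x ≤ f 0
  | .st, [i, t, a, c], [X, F], f => StepP i t a c X F (f 0) (f 1)
  | .stX, [a, c, j], [X, F], f => ∀ x, f x ≠ 0 ↔
      (X x ≠ 0 ∧ (c ≤ a → (∀ x, F x < c) → F x = j))
  | .edge, [i, a], _, f => ∀ z, f z ≠ 0 ↔ ∃ x y, x < y ∧ adj i a x y ∧ z = pr x y
  | .viol, [l], [g, E], f => f 0 < f 1 ∧ f 1 < l ∧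
      ¬ (g (f 0) < g (f 1) ∧ E (pr (g (f 0)) (g (f 1))) ≠ 0)
  | .pick, [d], [h, E], f => f 0 < f 1 ∧ f 1 < d ∧ h (f 0) ≠ 0 ∧ h (f 1) ≠ 0 ∧
      E (pr (f 0) (f 1)) ≠ 0
  | .least φ, N :: v, V, f => f 0 ≤ N ∧ (∀ z < f 0, ¬ SN V φ (z :: v)) ∧
      (f 0 = N ∨ SN V φ (f 0 :: v))
  | .leastF φ, N :: v, V, f => ∀ x, f x ≤ N ∧ (∀ z < f x, ¬ SN V φ (z :: x :: v)) ∧
      (f x = N ∨ SN V φ (f x :: x :: v))
  | .ca φ ψ, N :: v, V, f => ∀ x, f x ≠ 0 ↔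
      ∃ y < N, SN V φ (y :: x :: v) ∧ ∀ y' < y, SN V ψ (y' :: x :: v)
  | .argmax θ, N :: a :: v, V, f => ∀ w, f w < a ∧ ∀ x < a, ZZ V θ v N x w ≤ ZZ V θ v N (f w) w
  | .wstar θ, N :: x :: z :: v, V, f => f 0 ≤ N ∧ TT V θ v x z (f 0) ∧
      ∀ w ≤ N, TT V θ v x z w → w ≤ f 0
  | .yu θ, w :: x :: z :: v, V, f => f 0 ≤ z ∧ f 1 ≤ z ∧
      ∀ w' < w, SN V θ (w' :: f 1 :: f 0 :: x :: v)
  | _, _, _, _ => False

section existence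

lemma exists_least (P : ℕ → Prop) (N : ℕ) : ∃ z, z ≤ N ∧ (∀ z' < z, ¬ P z') ∧ (z = N ∨ P z) := by
  classical
  by_cases h : ∃ z, z < N ∧ P z
  · refine ⟨Nat.find h, (Nat.find_spec h).1.le, fun z' hz' hP => ?_, Or.inr (Nat.find_spec h).2⟩
    exact Nat.find_min h hz' ⟨hz'.trans (Nat.find_spec h).1, hP⟩
  · push Not at h
    exact ⟨N, le_rfl, h, Or.inl rfl⟩

lemma Rel_least (φ : BForm) (N : ℕ) (v : List ℕ) (V : List (ℕ → ℕ)) :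
    ∃ f, Rel (.least φ) (N :: v) V f := by
  obtain ⟨z, h1, h2, h3⟩ := exists_least (fun z => SN V φ (z :: v)) N
  exact ⟨fun _ => z, h1, h2, h3⟩

lemma Rel_leastF (φ : BForm) (N : ℕ) (v : List ℕ) (V : List (ℕ → ℕ)) :
    ∃ f, Rel (.leastF φ) (N :: v) V f := by
  choose f h1 h2 h3 using fun x => exists_least (fun z => SN V φ (z :: x :: v)) N
  exact ⟨f, fun x => ⟨h1 x, h2 x, h3 x⟩⟩

lemma exists_char (P : ℕ → Prop) : ∃ f : ℕ → ℕ, ∀ x, f x ≠ 0 ↔ P x := by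
  classical
  refine ⟨fun x => if P x then 1 else 0, fun x => ?_⟩
  by_cases h : P x <;> simp [h]

lemma Rel_ca (φ ψ : BForm) (N : ℕ) (v : List ℕ) (V : List (ℕ → ℕ)) :
    ∃ f, Rel (.ca φ ψ) (N :: v) V f := exists_char _

lemma Rel_stX (a c j : ℕ) (X F : ℕ → ℕ) : ∃ f, Rel .stX [a, c, j] [X, F] f := exists_char _

lemma Rel_edge (i a : ℕ) (V : List (ℕ → ℕ)) : ∃ f, Rel .edge [i, a] V f := exists_char _

lemma Rel_ancset (x : ℕ) (V : List (ℕ → ℕ)) : ∃ f, Rel .ancset [x] V f := exists_char _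

lemma Rel_app (x : ℕ) (F : ℕ → ℕ) : ∃ f, Rel .app [x] [F] f := ⟨fun _ => F x, rfl⟩

lemma Rel_add (x y : ℕ) (V : List (ℕ → ℕ)) : ∃ f, Rel .add [x, y] V f := ⟨fun _ => x + y, rfl⟩

lemma Rel_mul (x y : ℕ) (V : List (ℕ → ℕ)) : ∃ f, Rel .mul [x, y] V f := ⟨fun _ => x * y, rfl⟩

lemma Rel_sub (x y : ℕ) (V : List (ℕ → ℕ)) : ∃ f, Rel .sub [x, y] V f := ⟨fun _ => x - y, rfl⟩

lemma Rel_top (i a : ℕ) (V : List (ℕ → ℕ)) : ∃ f, Rel .top [i, a] V f := ⟨fun _ => e i a, rfl⟩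

lemma Rel_leastGE (c d : ℕ) (F : ℕ → ℕ) : ∃ f, Rel .leastGE [c, d] [F] f := by
  obtain ⟨z, h1, h2, h3⟩ := exists_least (fun z => d ≤ F z) c
  exact ⟨fun _ => z, h1, fun x hx => not_le.1 (h2 x hx), h3⟩

lemma Rel_argmax (θ : BForm) (N a : ℕ) (ha : 0 < a) (v : List ℕ) (V : List (ℕ → ℕ)) :
    ∃ f, Rel (.argmax θ) (N :: a :: v) V f := by
  have : ∀ w, ∃ x, x < a ∧ ∀ x' < a, ZZ V θ v N x' w ≤ ZZ V θ v N x w := by
    intro w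
    obtain ⟨x, hx, h⟩ := (Finset.range a).exists_max_image (fun x => ZZ V θ v N x w)
      ⟨0, Finset.mem_range.2 ha⟩
    exact ⟨x, Finset.mem_range.1 hx, fun x' hx' => h x' (Finset.mem_range.2 hx')⟩
  choose f h1 h2 using this
  exact ⟨f, fun w => ⟨h1 w, h2 w⟩⟩

lemma exists_greatest (P : ℕ → Prop) (N : ℕ) (h : ∃ z ≤ N, P z) :
    ∃ z ≤ N, P z ∧ ∀ z' ≤ N, P z' → z' ≤ z := by
  classical
  refine ⟨Nat.findGreatest P N, Nat.findGreatest_le N, ?_, fun z' hz' hP =>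
    Nat.le_findGreatest hz' hP⟩
  obtain ⟨z, hz, hP⟩ := h
  exact Nat.findGreatest_spec hz hP

lemma TT_zero (V : List (ℕ → ℕ)) (θ : BForm) (v : List ℕ) (x z : ℕ) : TT V θ v x z 0 :=
  ⟨0, Nat.zero_le _, 0, Nat.zero_le _, fun w' hw' => absurd hw' (Nat.not_lt_zero _)⟩

lemma Rel_wstar (θ : BForm) (N x z : ℕ) (v : List ℕ) (V : List (ℕ → ℕ)) :
    ∃ f, Rel (.wstar θ) (N :: x :: z :: v) V f := by
  obtain ⟨w, h1, h2, h3⟩ := exists_greatest (fun w => TT V θ v x z w) N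
    ⟨0, Nat.zero_le _, TT_zero _ _ _ _ _⟩
  exact ⟨fun _ => w, h1, h2, h3⟩

lemma Rel_yu (θ : BForm) (w x z : ℕ) (v : List ℕ) (V : List (ℕ → ℕ)) (h : TT V θ v x z w) :
    ∃ f, Rel (.yu θ) (w :: x :: z :: v) V f := by
  obtain ⟨y, hy, u, hu, h⟩ := h
  refine ⟨fun k => if k = 0 then y else u, ?_⟩
  simp only [Rel]
  simpa using ⟨hy, hu, h⟩

lemma Anc_le {y x : ℕ} (h : Anc y x) : y ≤ x := by
  obtain ⟨k, rfl, -⟩ := h
  exact Nat.div_le_self _ _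

lemma Rel_anc (x : ℕ) (A : ℕ → ℕ) (h : ¬ Good A x) : ∃ f, Rel .anc [x] [A] f := by
  unfold Good at h
  push Not at h
  obtain ⟨y, hy, hA⟩ := h
  obtain ⟨z, h1, h2, h3⟩ := exists_greatest (fun y => Anc y x ∧ A y = 0) x ⟨y, Anc_le hy, hy, hA⟩
  exact ⟨fun _ => z, h2.1, h2.2, fun y hy hA => h3 y (Anc_le hy) ⟨hy, hA⟩⟩

lemma Rel_wklpt (N : ℕ) (A : ℕ → ℕ) (h : ∃ x < N, Good A x) : ∃ f, Rel .wklpt [N] [A] f := by
  obtain ⟨x, hx, h⟩ := h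
  obtain ⟨z, h1, h2, h3⟩ := exists_greatest (fun y => y < N ∧ Good A y) N ⟨x, hx.le, hx, h⟩
  exact ⟨fun _ => z, h2.1, h2.2, fun y hy hA => h3 y hy.le ⟨hy, hA⟩⟩

lemma Rel_st {i t a c : ℕ} {X : ℕ → ℕ} (ha : 1 ≤ a) (h : Large (i + 1) (t + 1) a (supp X))
    (F : ℕ → ℕ) : ∃ f, Rel .st [i, t, a, c] [X, F] f := by
  obtain ⟨a', j, h⟩ := step (c := c) ha h F
  exact ⟨fun k => if k = 0 then a' else j, by simpa [Rel, StepP] using h⟩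

lemma Rel_viol (l : ℕ) (g E : ℕ → ℕ) (h : ∃ j k, j < k ∧ k < l ∧
    ¬ (g j < g k ∧ E (pr (g j) (g k)) ≠ 0)) : ∃ f, Rel .viol [l] [g, E] f := by
  obtain ⟨j, k, h⟩ := h
  exact ⟨fun n => if n = 0 then j else k, by simpa [Rel] using h⟩

lemma Rel_pick (d : ℕ) (h E : ℕ → ℕ) (H : ∃ x y, x < y ∧ y < d ∧ h x ≠ 0 ∧ h y ≠ 0 ∧
    E (pr x y) ≠ 0) : ∃ f, Rel .pick [d] [h, E] f := by
  obtain ⟨j, k, H⟩ := H
  exact ⟨fun n => if n = 0 then j else k, by simpa [Rel] using H⟩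

end existence

section count

deriving instance Countable for Term
deriving instance Countable for BForm
deriving instance Countable for Ix

end count

end Pool.Agent.H45.BRT
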